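import Pool.Agent.Lib.MP_87d05f_lc.ND.Stm

set_option autoImplicit false

/-!
# Vertex deletion problems: assembly from the pieces
-/

namespace Pool.Agent.Lib.MP_87d05f_lc.ND

open Pool.Agent.PolyTime Function Turing

theorem rat_pq' {ε : ℚ} (h0 : 0 < ε) :
    ∃ p q : ℕ, 0 < p ∧ 0 < q ∧ ε = (p : ℚ) / (q : ℕ) := by
  have hp : 0 < ε.num.toNat := by
    have := Rat.num_pos.2 h0
    omega
  have hpq : ((ε.num.toNat : ℕ) : ℚ) / ((ε.den : ℕ) : ℚ) = ε := by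
    have h2 : ((ε.num.toNat : ℕ) : ℤ) = ε.num := Int.toNat_of_nonneg (Rat.num_pos.2 h0).le
    have h3 : ((ε.num.toNat : ℕ) : ℚ) = (ε.num : ℚ) := by exact_mod_cast h2
    rw [h3, Rat.num_div_den]
  exact ⟨_, _, hp, ε.den_pos, hpq.symm⟩

/-- If Q1 fails, there are search machines for all payoff languages. -/
theorem q_find (hG : ¬ GapETH) : Q_find := by
  intro M p q b hp hpq hb
  obtain ⟨C, e, tm, e₀, e₁, h⟩ := search_main (ar := arD M) (phiD M) (by norm_num : 0 < 2)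
    (sepK_of_not hG) hp hpq hb
  refine ⟨C, e, tm, e₀, e₁, fun F _ => ?_⟩
  obtain ⟨a, ha, hrun⟩ := h F
  refine ⟨outW F a, ⟨a, rfl, fun a' => ?_⟩, hrun⟩
  have h2 := ha a'
  have hq' : (0 : ℚ) < ((q : ℕ) : ℚ) := by
    have : 0 < q := by omega
    exact_mod_cast this
  have h3 : ((q : ℕ) : ℚ) * (valC (phiD M) a' F : ℚ) ≤
      ((q : ℕ) : ℚ) * (valC (phiD M) a F : ℚ) + (p : ℚ) * (valC (phiD M) a' F : ℚ) := by
    exact_mod_cast h2
  have h4 : ((q : ℕ) : ℚ) * ((1 - (p : ℚ) / ((q : ℕ) : ℚ)) * (valC (phiD M) a' F : ℚ)) =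
      ((q : ℕ) : ℚ) * (valC (phiD M) a' F : ℚ) - (p : ℚ) * (valC (phiD M) a' F : ℚ) := by
    field_simp
  have h5 : ((q : ℕ) : ℚ) * ((1 - (p : ℚ) / ((q : ℕ) : ℚ)) * (valC (phiD M) a' F : ℚ)) ≤
      ((q : ℕ) : ℚ) * (valC (phiD M) a F : ℚ) := by
    rw [h4]
    linarith
  exact le_of_mul_le_mul_left h5 hq'

/-- The deletion problem of `FF` is hard. -/
def DelHard (FF : Set FG) : Prop := ∃ D : ℕ, ∃ ε : ℚ, 0 < ε ∧ ∃ b : ℕ, 0 < b ∧
  ¬ GSep enCut (VDel D) (YDel FF) (NDel FF ε) nvCut b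

/-- The search form of the deletion problem of `FF` is hard. -/
def DelSearchHard (FF : Set FG) : Prop := ∃ D : ℕ, ∃ ε : ℚ, 0 < ε ∧ ∃ b : ℕ, 0 < b ∧
  ¬ GFind enG (VDg D) (goodDel FF ε) nvG b

/-- The hypotheses: all pieces. -/
structure Pieces : Prop where
  ord : S_ord
  emb : S_emb
  cnti : S_cnti
  cmp : S_cmp
  core : S_core
  lab : S_lab
  pro : S_pro
  gadj : S_gadj
  gshp : S_gshp
  gloc : S_gloc
  gloop : S_gloop
  gemb : S_gemb
  gyes : S_gyes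
  gysz : S_gysz
  gno : S_gno
  gdeg : S_gdeg
  nrm : S_nrm
  map : S_map
  conf : S_conf
  vc : S_vc
  nmG : S_nmG
  ptA : S_ptA
  hard : S_hard
  sepf : S_sepf
  copy : S_copy
  hit : S_hit
  bnd : S_bnd
  clen : S_clen
  csol : S_csol
  cwf : S_cwf
  near : S_near
  inst : S_inst
  conv : S_conv
  ptC : S_ptC
  ptI : S_ptI
  ptO : S_ptO
  any : S_any
  cho : S_cho
  ptB : S_ptB
  bru : S_bru
  fin : S_fin

theorem asm_hard (P : Pieces) : R_hard := by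
  have hcore : R_core := P.core P.ord P.emb P.cnti P.cmp
  have hemb : R_gemb := P.gemb P.gadj
  have hyes : R_gyes := P.gyes (P.gshp P.gadj) (P.gloc P.gadj) hemb P.gloop P.pro
  exact P.hard hcore P.lab hyes P.gysz (P.gno P.gadj hemb) P.gdeg P.gloop P.nrm P.map P.conf P.vc
    P.nmG P.ptA

theorem asm_fin (P : Pieces) : R_fin := by
  have hhit : R_hit := P.hit P.copy
  have hclen : R_clen := P.clen hhit (P.bnd P.copy)
  have hI : R_ptI := P.ptI P.ptC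
  have hO : R_ptO := P.ptO hI
  have hany : R_any := P.any P.map hclen (P.near (P.csol P.copy hhit)) (P.inst (P.cwf P.copy))
    P.conv hI hO
  exact P.fin P.map hany (P.cho P.cmp) (P.ptB P.ptC hO) hI hO (P.bru P.copy hhit)

theorem asm_search (P : Pieces) (FF : Set FG) (h : DelHard FF) : DelSearchHard FF := by
  obtain ⟨D, ε, h0, b, hb, h⟩ := h
  refine ⟨D, ε, h0, b, hb, fun hs => h ?_⟩
  obtain ⟨p, q, hp, hq, rfl⟩ := rat_pq' h0
  exact P.sepf FF D p q b hq hb hs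

theorem asm_conv (P : Pieces) (FF : Set FG) (hf : FF.Finite) (h1 : ∀ H ∈ FF, H.2 ≠ ⊥)
    (h : DelSearchHard FF) : GapETH := by
  by_contra hG
  obtain ⟨D, ε, h0, b, hb, h⟩ := h
  obtain ⟨p, q, hp, hq, rfl⟩ := rat_pq' h0
  refine h ?_
  have hFL : {H | H ∈ hf.toFinset.toList} = FF := by
    ext H
    simp
  have hv : ∀ H ∈ hf.toFinset.toList, 1 ≤ H.1 := by
    rintro ⟨n, H⟩ hH
    have hH' : (⟨n, H⟩ : FG) ∈ FF := by simpa using hH
    rcases n with _ | n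
    · exact absurd (Subsingleton.elim _ _) (h1 _ hH')
    · exact Nat.succ_le_succ (Nat.zero_le _)
  have := asm_fin P (q_find hG) _ hv D p q b hp hq hb
  rw [hFL] at this
  exact this

theorem asm_main (P : Pieces) (FF : Set FG) (h0 : FF.Nonempty) (h1 : ∀ H ∈ FF, H.2 ≠ ⊥) :
    (GapETH → DelHard FF) ∧ (DelHard FF → DelSearchHard FF) ∧
    (FF.Finite → DelSearchHard FF → GapETH) :=
  ⟨asm_hard P FF h0 h1, asm_search P FF, fun hf h => asm_conv P FF hf h1 h⟩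

end Pool.Agent.Lib.MP_87d05f_lc.ND
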