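import Mathlib
import Pool.Agent.Lib.MP_87d05f_lc.CutFind

set_option autoImplicit false

/-!
# Vertex deletion problems: definitions

Graphs are given by lists of edges. `Sol FF E a`: after the deletion of the vertices `v` with
`a v = true` no member of the set `FF` of finite graphs is an induced subgraph.
-/

namespace Pool.Agent.Lib.MP_87d05f_lc.ND

open Pool.Agent.PolyTime Function Turing

/-- finite graphs -/
abbrev FG : Type := (n : ℕ) × SimpleGraph (Fin n)

section lists

variable {T : Type}

/-- the end points of the edges -/
def ends (E : List (T × T)) : List T := E.flatMap (fun e => [e.1, e.2])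

/-- adjacency in the graph of a list of edges -/
def adjL (E : List (T × T)) (p q : T) : Prop := (p, q) ∈ E ∨ (q, p) ∈ E

/-- the graph of the edges `E`, without the vertices `v` with `a v = true`, has an induced
subgraph isomorphic to `H` -/
def Has (E : List (T × T)) (a : T → Bool) (H : FG) : Prop :=
  ∃ f : Fin H.1 → T, Injective f ∧ (∀ i, f i ∈ ends E ∧ a (f i) = false) ∧
    ∀ i j, H.2.Adj i j ↔ ((f i, f j) ∈ E ∨ (f j, f i) ∈ E)

/-- the set of the vertices `v` with `a v = true` is a solution -/
def Sol (FF : Set FG) (E : List (T × T)) (a : T → Bool) : Prop := ∀ H ∈ FF, ¬ Has E a H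

/-- the number of deleted vertices -/
def dsz [DecidableEq T] (E : List (T × T)) (a : T → Bool) : ℕ :=
  ((ends E).toFinset.filter (fun v => a v = true)).card

/-- the number of vertices -/
def nv [DecidableEq T] (E : List (T × T)) : ℕ := (ends E).toFinset.card

/-- the list of edges of a simple graph -/
def Simple (E : List (T × T)) : Prop :=
  (∀ e ∈ E, e.1 ≠ e.2) ∧ E.Pairwise (fun e f => e ≠ f ∧ e ≠ (f.2, f.1))

/-- every edge occurs at most once in the list, up to orientation, and loops are removed -/
def nrm [DecidableEq T] (E : List (T × T)) : List (T × T) :=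
  E.foldr (fun e r => bif decide (e.1 = e.2) || decide (e ∈ r) || decide ((e.2, e.1) ∈ r) then r
    else e :: r) []

end lists

/-! ### The deletion problems -/

/-- simple graphs of maximum degree at most `D` with a threshold -/
def VDel (D : ℕ) (I : ℕ × List (ℕ × ℕ)) : Prop :=
  (∀ e ∈ I.2, e.1 ≠ e.2) ∧ I.2.Pairwise (fun e f => e ≠ f ∧ e ≠ (f.2, f.1)) ∧
    ∀ v, (I.2.flatMap (fun e => [e.1, e.2])).count v ≤ D

/-- some solution has at most `t` vertices -/
def YDel (FF : Set FG) (I : ℕ × List (ℕ × ℕ)) : Prop :=
  ∃ a : ℕ → Bool, Sol FF I.2 a ∧ dsz I.2 a ≤ I.1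

/-- all solutions have more than `(1 + ε) t` vertices -/
def NDel (FF : Set FG) (ε : ℚ) (I : ℕ × List (ℕ × ℕ)) : Prop :=
  ∀ a : ℕ → Bool, Sol FF I.2 a → (1 + ε) * (I.1 : ℚ) < (dsz I.2 a : ℚ)

/-- the graphs of maximum degree at most `D` -/
def VDg (D : ℕ) (E : List (ℕ × ℕ)) : Prop := VDel D (0, E)

/-- good answers for the search problem -/
def goodDel (FF : Set FG) (ε : ℚ) (E : List (ℕ × ℕ)) (w : List Bool) : Prop :=
  ∃ a : ℕ → Bool, w = E.flatMap (fun e => [a e.1, a e.2]) ∧ Sol FF E a ∧
    ∀ a' : ℕ → Bool, Sol FF E a' → (dsz E a : ℚ) ≤ (1 + ε) * (dsz E a' : ℚ)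

/-- good answers for the search problem with several families, only one of which must be
avoided -/
def goodAny (Φ : List (List FG)) (ε : ℚ) (E : List (ℕ × ℕ)) (w : List Bool) : Prop :=
  ∃ a : ℕ → Bool, w = E.flatMap (fun e => [a e.1, a e.2]) ∧ (∃ G ∈ Φ, Sol {H | H ∈ G} E a) ∧
    ∀ G' ∈ Φ, ∀ a' : ℕ → Bool, Sol {H | H ∈ G'} E a' → (dsz E a : ℚ) ≤ (1 + ε) * (dsz E a' : ℚ)

/-! ### The number of components of each size after the deletion of a vertex -/

section comp

variable {V : Type}

/-- the number of components of size `s` of the graph without the vertex `u` -/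
noncomputable def cnt (G : SimpleGraph V) (u : V) (s : ℕ) : ℕ :=
  Nat.card {C : (G.induce {w | w ≠ u}).ConnectedComponent // C.supp.ncard = s}

/-- comparison at the largest place where two functions differ -/
def MLt (f g : ℕ → ℕ) : Prop := ∃ s, f s < g s ∧ ∀ s', s < s' → f s' = g s'

/-- a family of maps with disjoint images and without edges between the images -/
def Indep {ι : Type} {W : ι → Type} (G : SimpleGraph V) (ψ : (i : ι) → W i → V) : Prop :=
  ∀ i j, i ≠ j → ∀ x y, ψ i x ≠ ψ j y ∧ ¬ G.Adj (ψ i x) (ψ j y)

/-- the data of the reduction: a connected graph `J` with a vertex `c` and a list `L` of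
connected graphs such that `N` independent copies of `J` and the members of `L` contain a
member of `FF`, whereas the graphs whose components are members of `L` or smaller than `J` at
`c` contain none -/
structure Core (FF : Set FG) (J : FG) (c : Fin J.1) (L : List FG) (N : ℕ) : Prop where
  conn : J.2.Connected
  two : 2 ≤ J.1
  mem : ∀ H ∈ L, H.2.Connected ∧ 2 ≤ H.1
  pos : 1 ≤ N
  good : ∀ (V : Type) [Finite V] (G : SimpleGraph V),
    (∀ C : G.ConnectedComponent, (∃ H ∈ L, Nonempty (G.induce C.supp ≃g H.2)) ∨
      (∃ u : C.supp, MLt (cnt (G.induce C.supp) u) (cnt J.2 c))) →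
    ∀ H ∈ FF, IsEmpty (H.2 ↪g G)
  bad : ∀ (V : Type) (G : SimpleGraph V)
    (ψ : (p : Fin N × Fin (J :: L).length) → (((J :: L).get p.2).2 ↪g G)),
    Indep G (fun p x => ψ p x) → ∃ H ∈ FF, Nonempty (H.2 ↪g G)

end comp

/-! ### The gadget graph -/

section gad

variable {V : Type} [DecidableEq V]

/-- vertices of the gadget graph: `(0, 0, u, u)` the vertex `u` of the base graph,
`(2, x, u, v)` an inner vertex of the gadget of the edge `(u, v)`, `(3, x, u, u)` a vertex of
the gadget of the vertex `u`, `(t, x, u, v)` with `t ≥ 4` a vertex of an additional component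
of the edge `(u, v)` -/
abbrev GV (V : Type) : Type := ℕ × ℕ × V × V

/-- slots of the gadget: a tag and a number -/
abbrev Slt : Type := ℕ × ℕ

/-- the vertex of a slot for the edge `(u, v)` -/
def place (u v : V) (s : Slt) : GV V :=
  bif decide (s.1 = 0) then (0, 0, u, u) else bif decide (s.1 = 1) then (0, 0, v, v) else
  bif decide (s.1 = 3) then (3, s.2, u, u) else (s.1, s.2, u, v)

/-- the gadget graph of the base graph `B`, for tables of edges of the vertex gadget and of the
edge gadget -/
def gadT (tv te : List (Slt × Slt)) (B : List (V × V)) : List (GV V × GV V) :=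
  (ded (ends B)).flatMap (fun u => tv.map (fun s => (place u u s.1, place u u s.2))) ++
    B.flatMap (fun e => te.map (fun s => (place e.1 e.2 s.1, place e.1 e.2 s.2)))

/-- `K` copies of a graph -/
def cop (K : ℕ) (B : List (V × V)) : List ((ℕ × V) × (ℕ × V)) :=
  (List.range K).flatMap (fun κ => B.map (fun e => ((κ, e.1), (κ, e.2))))

end gad

open Classical in
/-- the edges of a finite graph, as pairs of numbers -/
noncomputable def edgesOf (H : FG) : List (ℕ × ℕ) :=
  (List.finRange H.1).flatMap (fun x : Fin H.1 => ((List.finRange H.1).filter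
    (fun y : Fin H.1 => decide (x < y ∧ H.2.Adj x y))).map (fun y : Fin H.1 => ((x : ℕ), (y : ℕ))))

/-- the slot of a vertex of `J`: the vertex `c` has tag 0, the vertex `d` tag 1, the other
vertices of `C` tag 2, all others tag 3 -/
def slotJ (c d : ℕ) (C : ℕ → Bool) (x : ℕ) : Slt :=
  if x = c then (0, x) else if x = d then (1, x) else if C x = true then (2, x) else (3, x)

/-- the table of the vertex gadget: the edges of `J` outside `C` -/
noncomputable def tabV (J : FG) (c d : ℕ) (C : ℕ → Bool) : List (Slt × Slt) :=
  ((edgesOf J).filter (fun e => !(C e.1) && !(C e.2))).map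
    (fun e => (slotJ c d C e.1, slotJ c d C e.2))

/-- the table of the edge gadget: the edges of `J` that meet `C`, and the graphs in `L` -/
noncomputable def tabE (J : FG) (c d : ℕ) (C : ℕ → Bool) (L : List FG) : List (Slt × Slt) :=
  ((edgesOf J).filter (fun e => C e.1 || C e.2)).map
    (fun e => (slotJ c d C e.1, slotJ c d C e.2)) ++
  L.zipIdx.flatMap (fun p => (edgesOf p.1).map (fun e => ((4 + p.2, e.1), (4 + p.2, e.2))))

/-- `a` is a vertex cover -/
def Cov {V : Type} (B : List (V × V)) (a : V → Bool) : Prop :=
  ∀ e ∈ B, a e.1 = true ∨ a e.2 = true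

/-- `B` has no pair of opposite edges and no loops -/
def Asym {V : Type} (B : List (V × V)) : Prop := ∀ u v, (u, v) ∈ B → (v, u) ∉ B

/-! ### The conflict graph of a formula -/

section conf

variable {W : Type} [DecidableEq W]

/-- the occurrences of the literals, with the places -/
def lits (G : List (List (Lit W))) : List ((ℕ × ℕ) × Lit W) :=
  G.zipIdx.flatMap (fun p => p.1.zipIdx.map (fun q => ((p.2, q.2), q.1)))

/-- `(i, j)` is before `(i', j')` -/
def bfr (p q : ℕ × ℕ) : Bool :=
  decide (p.1 < q.1) || (decide (p.1 = q.1) && decide (p.2 < q.2))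

/-- two occurrences are in conflict: they are in the same clause or opposite literals -/
def cfl (p q : (ℕ × ℕ) × Lit W) : Bool :=
  bfr p.1 q.1 && (decide (p.1.1 = q.1.1) || (decide (p.2.2 = q.2.2) && (xor p.2.1 q.2.1)))

/-- the conflict graph -/
def confE (G : List (List (Lit W))) : List ((ℕ × ℕ) × (ℕ × ℕ)) :=
  ((lits G).flatMap (fun p => ((lits G).filter (fun q => cfl p q)).map (fun q => (p.1, q.1))))

/-- the number of literals -/
def nlit (G : List (List (Lit W))) : ℕ := (G.map List.length).sum

end conf

/-! ### Names -/

/-- the word of a list of numbers -/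
def wdL (l : List ℕ) : List Bool := l.flatMap (fun a => List.replicate a false ++ [true])

/-- the numbers of a vertex of the gadget graph over copies of a conflict graph -/
def numsG (p : GV (ℕ × (ℕ × ℕ))) : List ℕ :=
  [p.1, p.2.1, p.2.2.1.1, p.2.2.1.2.1, p.2.2.1.2.2, p.2.2.2.1, p.2.2.2.2.1, p.2.2.2.2.2]

/-- the name of a vertex, as a word and as a number -/
def wdG (p : GV (ℕ × (ℕ × ℕ))) : List Bool := wdL (numsG p)

/-- the name of a vertex as a number -/
def nmG (p : GV (ℕ × (ℕ × ℕ))) : ℕ := unbits (wdG p)

/-- the graph of the reduction -/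
def redD (tv te : List (Slt × Slt)) (K : ℕ) {W : Type} [DecidableEq W]
    (G : List (List (Lit W))) : List (GV (ℕ × (ℕ × ℕ)) × GV (ℕ × (ℕ × ℕ))) :=
  nrm (gadT tv te (cop K (confE G)))

/-! ### Copies, constraints -/

section cps

variable {T : Type} [DecidableEq T] [Inhabited T]

/-- all lists of length `k` with elements in `l` -/
def tup (l : List T) : ℕ → List (List T)
  | 0 => [[]]
  | k + 1 => l.flatMap (fun a => (tup l k).map (fun t => a :: t))

open Classical in
/-- all pairs of vertices of a graph and whether they are adjacent -/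
noncomputable def patH (H : FG) : List ((ℕ × ℕ) × Bool) :=
  (List.finRange H.1).flatMap (fun x : Fin H.1 => (List.finRange H.1).map
    (fun y : Fin H.1 => (((x : ℕ), (y : ℕ)), decide (H.2.Adj x y))))

/-- `t` is the list of the vertices of an induced copy, for a table of adjacencies -/
def isCopy (pat : List ((ℕ × ℕ) × Bool)) (E : List (T × T)) (t : List T) : Bool :=
  pat.all (fun r => (decide (r.1.1 = r.1.2) || !(decide (t.getD r.1.1 default =
    t.getD r.1.2 default))) && (r.2 == (decide ((t.getD r.1.1 default, t.getD r.1.2 default) ∈ E)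
      || decide ((t.getD r.1.2 default, t.getD r.1.1 default) ∈ E))))

/-- the induced copies of `H` -/
noncomputable def copies (H : FG) (E : List (T × T)) : List (List T) :=
  (tup (ded (ends E)) H.1).filter (isCopy (patH H) E)

/-- the copies of the members of a family -/
noncomputable def cps (G : List FG) (E : List (T × T)) : List (List T) :=
  G.flatMap (fun H => copies H E)

/-- the constraints of a family: `(0, [w])` for the vertices of copies and `(k, t)` for the
copies `t` with `k` vertices -/
noncomputable def cons (G : List FG) (E : List (T × T)) : List (ℕ × List T) :=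
  (ded (cps G E).flatten).map (fun w => (0, [w])) ++ (cps G E).map (fun t => (t.length, t))

/-- violated constraints, for the values of the places (`true` means not deleted): `(0, [w])`
is violated if `w` is deleted, a copy if no vertex is deleted -/
def vio (s : ℕ) (z : List Bool) : Bool :=
  bif decide (s = 0) then !(z.headD true) else z.all (fun b => b)

/-- the first vertices of the violated constraints -/
def fst0 (F : List (ℕ × List T)) (b : T → Bool) : List T :=
  (F.filter (fun c => vio c.1 (c.2.map b))).map (fun c => c.2.headD default)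

end cps

/-! ### The payoff language: arity 1 for symbol 0, arity `k` for symbol `k` -/

/-- the arities -/
def arD (M : ℕ) (i : Fin (M + 1)) : ℕ := if (i : ℕ) = 0 then 1 else i

/-- the payoffs: 1 if the constraint is not violated (value 1 means not deleted) -/
def phiD (M : ℕ) (i : Fin (M + 1)) (x : Fin (arD M i) → Fin 2) : ℕ :=
  if vio (i : ℕ) (List.ofFn (fun j => decide (x j = 1))) = true then 0 else 1

/-! ### Words -/

/-- words -/
abbrev Wd : Type := List Bool

/-- the edges of a graph, as pairs of words, from the input -/
def edW (x : List Bool) : List (Wd × Wd) := (parseW x).map (fun c => (c.headD [], c.tail.headD []))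

/-- the edges in words -/
def bE (E : List (ℕ × ℕ)) : List (Wd × Wd) := E.map (fun e => (Nat.bits e.1, Nat.bits e.2))

/-- the constraints of all families -/
noncomputable def allC (Φ : List (List FG)) (E : List (Wd × Wd)) : List (ℕ × List (ℕ × List Wd)) :=
  Φ.zipIdx.map (fun p => (p.2, cons p.1 E))

/-- the families whose number of constraints is nearly minimal -/
def candL (C₀ : ℕ) (A : List (ℕ × List (ℕ × List Wd))) : List (ℕ × List (ℕ × List Wd)) :=
  A.filter (fun p => A.all (fun q => decide (p.2.length ≤ C₀ * q.2.length)))

/-- the instance: family, symbol, places -/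
noncomputable def insW (Φ : List (List FG)) (C₀ : ℕ) (E : List (Wd × Wd)) :
    List (ℕ × (ℕ × List Wd)) :=
  (candL C₀ (allC Φ E)).flatMap (fun p => p.2.map (fun c => (p.1, c)))

/-- the words of a constraint of the instance; the variable `w` of family `j` has the name
`nb w j` -/
def conW (M : ℕ) (r : ℕ × (ℕ × List Wd)) : List Wd :=
  ((List.range (M + 1)).map Nat.bits).getD r.2.1 [] :: r.2.2.map (fun w => nb w r.1)

/-- the shortest list -/
def pick (l₀ : List Wd) (L : List (List Wd)) : List Wd :=
  L.foldl (fun r l => bif decide (l.length < r.length) then l else r) l₀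

/-- the values of the places are distributed to the constraints -/
def disV (F : List (ℕ × (ℕ × List Wd))) (bs : List Bool) :
    List ((ℕ × (ℕ × List Wd)) × List Bool) :=
  match F with
  | [] => []
  | r :: F => (r, bs.take r.2.2.length) :: disV F (bs.drop r.2.2.length)

/-- the first vertices of the violated constraints of family `j` -/
def fstZ (j : ℕ) (Z : List ((ℕ × (ℕ × List Wd)) × List Bool)) : List Wd :=
  (Z.filter (fun r => decide (r.1.1 = j) && vio r.1.2.1 r.2)).map (fun r => r.1.2.2.headD [])

/-- the best set for the values `bs` of the places -/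
noncomputable def outS (Φ : List (List FG)) (C₀ : ℕ) (E : List (Wd × Wd)) (bs : List Bool) :
    List Wd :=
  pick ((ded (ends E))) ((candL C₀ (allC Φ E)).map
    (fun p => ded (fstZ p.1 (disV (insW Φ C₀ E) bs))))

/-- the indicator function of a list of vertices on all end points -/
def indW (E : List (Wd × Wd)) (S : List Wd) : List Bool := (ends E).map (fun v => decide (v ∈ S))

/-- the vertices selected by a list of bits -/
def selW (l : List Wd) (w : List Bool) : List Wd :=
  (l.zipIdx.filter (fun p => w.getD p.2 false)).map Prod.fst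

/-- the list `S` hits all copies of the members of `FL` -/
noncomputable def hitsW (FL : List FG) (E : List (Wd × Wd)) (S : List Wd) : Bool :=
  (cps FL E).all (fun t => t.any (fun w => decide (w ∈ S)))

/-- the better of a given solution and all solutions with at most `c` vertices -/
noncomputable def bruteW (FL : List FG) (c : ℕ) (E : List (Wd × Wd)) (S : List Wd) : List Wd :=
  pick (ded S) ((((List.range (c + 1)).flatMap (fun k => tup (ded (ends E)) k)).filter
    (hitsW FL E)).map ded)

end Pool.Agent.Lib.MP_87d05f_lc.ND
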