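import Mathlib
import Pool.Agent.Lib.MP_87d05f_lc.WordMachine
import Pool.Agent.Lib.MP_87d05f_lc.OracleSearch

set_option autoImplicit false

/-!
# Loops and depth-first search with word answers of a given machine

`oracle_machineW`: the loop machine with calls of a given machine, the answers being words.
`dfs_word`: depth-first search with calls at the leaves and an accumulator.
-/

namespace Pool.Agent.Lib.MP_87d05f_lc

open Pool.Agent.PolyTime Function Turing Polynomial

/-- The loop machine with calls of a given machine, word answers and a word as output. -/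
theorem oracle_machineW {σ : Type} [SCode σ] (tm : FinTM2) (e₀ : tm.Γ tm.k₀ ≃ Bool)
    (e₁ : tm.Γ tm.k₁ ≃ Bool) {init : List Bool → σ} {query : σ → Qry}
    {next : List Bool → σ → σ} {dn : σ → Bool} {out : σ → List Bool}
    (hi : PTime init) (hq : PTime query) (hn : PTime (fun p : List Bool × σ => next p.1 p.2))
    (hd : PTime dn) (ho : PTime out) :
    ∃ (tm' : FinTM2) (e₀' : tm'.Γ tm'.k₀ ≃ Bool) (e₁' : tm'.Γ tm'.k₁ ≃ Bool)
      (P : Polynomial ℕ) (κ : ℕ),
      ∀ (x : List Bool) (N B R : ℕ), 1 ≤ N →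
        (∀ i, i ≤ N → sz ((fun s => next (ansWT tm e₀ e₁ (query s)) s)^[i] (init x)) ≤ B) →
        (∀ i, i < N → (ansWT tm e₀ e₁ (query
          ((fun s => next (ansWT tm e₀ e₁ (query s)) s)^[i] (init x)))).length ≤ B) →
        (∀ i, i < N → qcost (query
          ((fun s => next (ansWT tm e₀ e₁ (query s)) s)^[i] (init x))) ≤ R) →
        (∀ i, 1 ≤ i → i < N →
          dn ((fun s => next (ansWT tm e₀ e₁ (query s)) s)^[i] (init x)) = false) →
        dn ((fun s => next (ansWT tm e₀ e₁ (query s)) s)^[N] (init x)) = true →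
        ∀ m : ℕ, P.eval x.length + N * (P.eval B + κ * R) ≤ m →
        Nonempty (TM2OutputsInTime tm' (x.map e₀'.symm)
          (some ((out ((fun s => next (ansWT tm e₀ e₁ (query s)) s)^[N]
            (init x))).map e₁'.symm)) m) := by
  have : Fintype tm.K := tm.kFin
  obtain ⟨ci, Pi, hci⟩ := ptime_cmd hi
  have hq' : PTime (fun s : σ => (query s, s)) := hq.pair PTime.id
  obtain ⟨cq, Pq, hcq⟩ := ptime_cmd hq'
  have hn' : PTime (fun p : List Bool × σ => (dn (next p.1 p.2), next p.1 p.2)) :=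
    (hd.comp hn).pair hn
  obtain ⟨cn, Pn, hcn⟩ := ptime_cmd hn'
  obtain ⟨co, Po, hco⟩ := ptime_cmd ho
  obtain ⟨Pz, hPz⟩ := ho.sz_le
  obtain ⟨cc, κ, hcc⟩ := @exists_callW tm.K tm.kDecidableEq tm.Γ tm.Λ tm.σ tm.kFin tm.ΛFin
    tm.σFin tm.m tm.k₀ tm.k₁ tm.Γk₀Fin e₀.symm tm.main tm.initialState e₁
  set step : σ → σ := fun s => next (ansWT tm e₀ e₁ (query s)) s with hstep
  set up : Cmd St → Cmd (KK tm.K) := fun c => mapCmd Sum.inl (mapCmd Sum.inl c) with hup
  set body : Cmd (KK tm.K) := .seq (up cq) (.seq cc (up cn)) with hbody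
  have hb : ∀ s : σ, RunLe body (fA (enc s).bits [])
      (fA (enc (dn (step s), step s)).bits [])
      (Pq.eval (sz s) + (κ * qcost (query s) +
        Pn.eval (4 * (ansWT tm e₀ e₁ (query s)).length + sz s + 2))) := by
    intro s
    have h1 := run_st (K := tm.K) (hcq s)
    have h2 := hcc (query s).1 (query s).2.1 (query s).2.2 (enc s).bits
    have h3 := run_st (K := tm.K) (hcn (ansWT tm e₀ e₁ (query s), s))
    have e1 : (enc (query s, s)).bits = true :: ((enc (query s)).bits ++ (enc s).bits) := by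
      simp [Sx.bits]
    have e2 : (enc (ansWT tm e₀ e₁ (query s), s)).bits =
        true :: ((enc (ansWT tm e₀ e₁ (query s))).bits ++ (enc s).bits) := by
      simp [Sx.bits]
    rw [e1] at h1
    rw [e2] at h3
    refine RunLe.seq h1 (RunLe.seq h2 (h3.mono (eval_mono Pn ?_)))
    have := sz_listBool_le (ansWT tm e₀ e₁ (query s))
    rw [sz_pair]
    omega
  set c : Cmd (KK tm.K) := .seq (up convCmd) (.seq (up ci) (.seq (.push (.inl (.inl .C)) true)
    (.seq (.loopT (.inl (.inl .C)) (.seq body (up flagCmd))) (.seq (up co) (up decCmd))))) with hc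
  refine ⟨(Flow.compile c).toTM (.inl (.inl .A)) (.inl (.inl .A)), Equiv.refl _, Equiv.refl _,
    C 7 * X + C 10 + Pi.comp (C 4 * X + C 1) + Pq + Pn.comp (C 5 * X + C 2) + C 10 + Po +
      C 7 * Pz + C 10, κ, ?_⟩
  intro x N B R hN hB hA hR hf hd' m hm
  obtain ⟨N, rfl⟩ : ∃ M, N = M + 1 := ⟨N - 1, by omega⟩
  set s0 := init x with hs0
  have h1 := run_st (K := tm.K) (run_conv x)
  have h2 := run_st (K := tm.K) (hci x)
  have h3 := loop_run' (step := step) (dn := dn) hb N s0
    (Pq.eval B + (κ * R + Pn.eval (5 * B + 2))) (fun i hi => by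
      have g1 := eval_mono Pq (hB i (by omega))
      have g2 : Pn.eval (4 * (ansWT tm e₀ e₁ (query (step^[i] s0))).length +
          sz (step^[i] s0) + 2) ≤ Pn.eval (5 * B + 2) := by
        refine eval_mono Pn ?_
        have k1 := hB i (by omega)
        have k2 := hA i (by omega)
        omega
      have g3 := Nat.mul_le_mul_left κ (hR i (by omega))
      omega)
    (fun i hi hi' => hf i hi (by omega)) hd'
  have h4 := run_st (K := tm.K) (hco (step^[N + 1] s0))
  have h5 := run_st (K := tm.K) (run_dec (out (step^[N + 1] s0)))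
  have hp : RunLe (.push (.inl (.inl .C)) true : Cmd (KK tm.K)) (fA (enc s0).bits [])
      (fA (enc s0).bits [true]) 1 := by
    have h := RunLe.push (fA (enc s0).bits []) (.inl (.inl .C) : KK tm.K) true
    have e : update (fA (enc s0).bits []) (.inl (.inl .C) : KK tm.K)
        (true :: fA (enc s0).bits [] (.inl (.inl .C) : KK tm.K)) =
        fA (enc s0).bits [true] := by
      unfold fA
      rw [full_st, update_C]
      rfl
    rw [e] at h
    exact h
  have hrun := RunLe.seq h1 (RunLe.seq h2 (RunLe.seq hp (RunLe.seq h3 (RunLe.seq h4 h5))))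
  obtain ⟨t, ht, hrun⟩ := hrun
  have hBN := hB (N + 1) le_rfl
  have hlen : (out (step^[N + 1] s0)).length ≤ Pz.eval B := by
    have h6 := (length_le_sz _).trans ((hPz (step^[N + 1] s0)).trans (eval_mono Pz hBN))
    omega
  have hb1 : t + 1 ≤ m := by
    refine le_trans ?_ hm
    have e1 := eval_mono Pi (sz_listBool_le x)
    have e2 := eval_mono Po hBN
    simp only [eval_add, eval_mul, eval_C, eval_X, eval_comp]
    generalize eval B Pq = u at *
    generalize eval (5 * B + 2) Pn = u' at *
    generalize eval B Po = v at *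
    generalize eval B Pz = v1 at *
    generalize eval (sz x) Pi = w at *
    generalize eval (4 * x.length + 1) Pi = w' at *
    generalize eval (4 * B + 1) Pi = w'' at *
    generalize eval x.length Pq = y1 at *
    generalize eval (5 * x.length + 2) Pn = y2 at *
    generalize eval x.length Po = y3 at *
    generalize eval x.length Pz = y4 at *
    generalize eval (sz (step^[N + 1] s0)) Po = v' at *
    generalize κ * R = z at *
    have k1 : (N + 1) * (u + (z + u') + 5) + ((N + 1) * v + (N + 1) * (7 * v1)) ≤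
        (N + 1) * (7 * B + 10 + w'' + u + u' + 10 + v + 7 * v1 + 10 + z) := by
      rw [← Nat.mul_add, ← Nat.mul_add]
      exact Nat.mul_le_mul_left _ (by omega)
    have k2 : v ≤ (N + 1) * v := Nat.le_mul_of_pos_left _ (Nat.succ_pos N)
    have k3 : 7 * v1 ≤ (N + 1) * (7 * v1) := Nat.le_mul_of_pos_left _ (Nat.succ_pos N)
    omega
  rw [← update_eq_fA, ← update_eq_fA] at hrun
  have h := Cmd.outputs c (.inl (.inl .A)) (.inl (.inl .A)) hrun m hb1
  have e : ∀ l : List Bool, List.map (Equiv.refl Bool).symm l = l := fun l => List.map_id l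
  have e4 : ∀ x' y' : List Bool, x' = x → y' = out (step^[N + 1] s0) →
      Nonempty (TM2OutputsInTime ((Flow.compile c).toTM (.inl (.inl .A)) (.inl (.inl .A))) x'
        (some y') m) := by
    rintro x' y' rfl rfl
    exact h
  exact e4 _ _ (e x) (e _)

/-! ### Depth-first search with an accumulator -/

/-- `DfsRes ex an upd t b b'`: the search below `t` leads from the accumulator `b` to `b'` -/
inductive DfsRes {τ β : Type} (ex : τ → Qry ⊕ (τ × τ)) (an : Qry → List Bool)
    (upd : τ → List Bool → β → β) : τ → β → β → Prop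
  | leaf {t : τ} {q : Qry} {b : β} : ex t = Sum.inl q → DfsRes ex an upd t b (upd t (an q) b)
  | node {t l r : τ} {b b1 b2 : β} : ex t = Sum.inr (l, r) → DfsRes ex an upd l b b1 →
      DfsRes ex an upd r b1 b2 → DfsRes ex an upd t b b2

section dfsw

variable {τ β : Type} (ex : τ → Qry ⊕ (τ × τ)) (an : Qry → List Bool)
  (upd : τ → List Bool → β → β)

/-- one step of the search -/
def wstep (s : List τ × β) : List τ × β :=
  match s.1 with
  | [] => s
  | t :: rest => (ex t).elim (fun q => (rest, upd t (an q) s.2))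
      (fun lr => (lr.1 :: lr.2 :: rest, s.2))

theorem wdfs_gen (Inv : τ → Prop) (InvB : β → Prop) (D W : τ → ℕ)
    (hexp : ∀ s, Inv s → (∃ q, ex s = Sum.inl q ∧ ∀ b, InvB b → InvB (upd s (an q) b)) ∨
      (∃ l r, ex s = Sum.inr (l, r) ∧ Inv l ∧ Inv r ∧ D l + 1 ≤ D s ∧ D r + 1 ≤ D s ∧
        1 + W l + W r ≤ W s))
    (hW : ∀ s, 1 ≤ W s) :
    ∀ (m : ℕ) (s : τ), D s ≤ m → Inv s → ∀ (b : β), InvB b → ∀ rest : List τ, ∃ (k : ℕ) (b' : β),
      1 ≤ k ∧ k ≤ W s ∧ DfsRes ex an upd s b b' ∧ InvB b' ∧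
      (∀ i, i < k → ∃ (pre : List τ) (b'' : β), pre ≠ [] ∧ pre.length ≤ D s + 1 ∧
        (∀ t ∈ pre, Inv t) ∧ InvB b'' ∧
        (wstep ex an upd)^[i] (s :: rest, b) = (pre ++ rest, b'')) ∧
      (wstep ex an upd)^[k] (s :: rest, b) = (rest, b') := by
  have hleaf : ∀ (s : τ) (q : Qry), Inv s → ex s = Sum.inl q →
      (∀ b, InvB b → InvB (upd s (an q) b)) → ∀ (b : β), InvB b → ∀ rest : List τ,
      ∃ (k : ℕ) (b' : β),
      1 ≤ k ∧ k ≤ W s ∧ DfsRes ex an upd s b b' ∧ InvB b' ∧
      (∀ i, i < k → ∃ (pre : List τ) (b'' : β), pre ≠ [] ∧ pre.length ≤ D s + 1 ∧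
        (∀ t ∈ pre, Inv t) ∧ InvB b'' ∧
        (wstep ex an upd)^[i] (s :: rest, b) = (pre ++ rest, b'')) ∧
      (wstep ex an upd)^[k] (s :: rest, b) = (rest, b') := by
    intro s q hI hq hu b hb rest
    refine ⟨1, upd s (an q) b, le_rfl, hW _, .leaf hq, hu b hb, ?_, ?_⟩
    · intro i hi
      obtain rfl : i = 0 := by omega
      exact ⟨[s], b, by simp, by simp, by simpa using hI, hb, by simp⟩
    · simp [wstep, hq]
  intro m
  induction m with
  | zero =>
    intro s hs hI b hb rest
    rcases hexp s hI with ⟨q, hq, hu⟩ | ⟨l, r, hlr, _, _, hl, _⟩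
    · exact hleaf s q hI hq hu b hb rest
    · omega
  | succ m ih =>
    intro s hs hI b hb rest
    rcases hexp s hI with ⟨q, hq, hu⟩ | ⟨l, r, hlr, hIl, hIr, hl, hr, hsum⟩
    · exact hleaf s q hI hq hu b hb rest
    · have hstep1 : (wstep ex an upd) (s :: rest, b) = (l :: r :: rest, b) := by
        simp [wstep, hlr]
      obtain ⟨k1, b1, hk1, hk1T, hd1, hb1, hpre1, hres1⟩ := ih l (by omega) hIl b hb (r :: rest)
      obtain ⟨k2, b2, hk2, hk2T, hd2, hb2, hpre2, hres2⟩ := ih r (by omega) hIr b1 hb1 rest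
      have hmid : (wstep ex an upd)^[k1 + 1] (s :: rest, b) = (r :: rest, b1) := by
        rw [Function.iterate_succ_apply, hstep1, hres1]
      refine ⟨k1 + 1 + k2, b2, by omega, by omega, .node hlr hd1 hd2, hb2, ?_, ?_⟩
      · intro i hi
        by_cases hik : i < k1 + 1
        · rcases i with _ | i
          · exact ⟨[s], b, by simp, by simp, by simpa using hI, hb, by simp⟩
          · obtain ⟨p, b'', hp0, hpl, hpI, hpb, hp⟩ := hpre1 i (by omega)
            refine ⟨p ++ [r], b'', by simp, ?_, ?_, hpb, ?_⟩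
            · simp only [List.length_append, List.length_singleton]; omega
            · intro t ht
              rw [List.mem_append, List.mem_singleton] at ht
              rcases ht with ht | rfl
              · exact hpI t ht
              · exact hIr
            · rw [Function.iterate_succ_apply, hstep1, hp]
              simp
        · obtain ⟨j, rfl⟩ : ∃ j, i = j + (k1 + 1) := ⟨i - (k1 + 1), by omega⟩
          obtain ⟨p, b'', hp0, hpl, hpI, hpb, hp⟩ := hpre2 j (by omega)
          refine ⟨p, b'', hp0, by omega, hpI, hpb, ?_⟩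
          rw [Function.iterate_add_apply, hmid, hp]
      · rw [Nat.add_comm (k1 + 1) k2, Function.iterate_add_apply, hmid, hres2]

end dfsw

section machine

variable {ε τ β : Type} [SCode ε] [SCode τ] [SCode β]

/-- the query of the state of the search -/
def wquery (expand : ε → τ → Qry ⊕ (τ × τ)) (s : ε × (List τ × β)) : Qry :=
  (List.casesOn s.2.1 ([], (0, 0)) (fun t _ => (expand s.1 t).elim
    (fun q => q) (fun _ => ([], (0, 0)))))

/-- the next state of the search, the answer to the query being given -/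
def wnext (expand : ε → τ → Qry ⊕ (τ × τ)) (upd : ε → τ → List Bool → β → β) (w : List Bool)
    (s : ε × (List τ × β)) : ε × (List τ × β) :=
  (s.1, (List.casesOn s.2.1 s.2 (fun t rest => (expand s.1 t).elim
    (fun _ => (rest, upd s.1 t w s.2.2)) (fun lr => (lr.1 :: lr.2 :: rest, s.2.2)))))

omit [SCode ε] [SCode τ] [SCode β] in
theorem wnext_eq (tm : FinTM2) (e₀ : tm.Γ tm.k₀ ≃ Bool) (e₁ : tm.Γ tm.k₁ ≃ Bool)
    (expand : ε → τ → Qry ⊕ (τ × τ)) (upd : ε → τ → List Bool → β → β)
    (s : ε × (List τ × β)) :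
    wnext expand upd (ansWT tm e₀ e₁ (wquery expand s)) s =
      (s.1, wstep (expand s.1) (ansWT tm e₀ e₁) (upd s.1) s.2) := by
  rcases s with ⟨e, ⟨_ | ⟨t, rest⟩, b⟩⟩
  · rfl
  · unfold wnext wstep wquery
    simp only
    rcases h : expand e t with q | lr
    · rfl
    · rfl

theorem wquery_ptime {expand : ε → τ → Qry ⊕ (τ × τ)}
    (he : PTime (fun p : ε × τ => expand p.1 p.2)) :
    PTime (wquery (β := β) expand) := by
  unfold wquery
  refine PTime.list_casesOn (f := fun s : ε × (List τ × β) => s.2.1)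
    (g := fun _ => (([], (0, 0)) : Qry))
    (h := fun s t _ => ((expand s.1 t).elim (fun q => q) (fun _ => (([], (0, 0)) : Qry))))
    (PTime.fst.comp PTime.snd) (PTime.const _) ?_
  refine PTime.sum_elim (f := fun p : (ε × (List τ × β)) × τ × List τ => expand p.1.1 p.2.1)
    (g := fun _ q => q) (h := fun _ _ => (([], (0, 0)) : Qry)) ?_ PTime.snd (PTime.const _)
  exact he.comp ((PTime.fst.comp PTime.fst).pair (PTime.fst.comp PTime.snd))

theorem wnext_ptime {expand : ε → τ → Qry ⊕ (τ × τ)} {upd : ε → τ → List Bool → β → β}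
    (he : PTime (fun p : ε × τ => expand p.1 p.2))
    (hu : PTime (fun p : (ε × τ) × (List Bool × β) => upd p.1.1 p.1.2 p.2.1 p.2.2)) :
    PTime (fun p : List Bool × (ε × (List τ × β)) => wnext expand upd p.1 p.2) := by
  unfold wnext
  refine (PTime.fst.comp PTime.snd).pair ?_
  refine PTime.list_casesOn (f := fun p : List Bool × (ε × (List τ × β)) => p.2.2.1)
    (g := fun p => p.2.2)
    (h := fun p t rest => ((expand p.2.1 t).elim
      (fun _ => (rest, upd p.2.1 t p.1 p.2.2.2)) (fun lr => (lr.1 :: lr.2 :: rest, p.2.2.2)) :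
        List τ × β))
    (PTime.fst.comp (PTime.snd.comp PTime.snd)) (PTime.snd.comp PTime.snd) ?_
  have hE : PTime (fun q : (List Bool × (ε × (List τ × β))) × τ × List τ => q.1.2.1) :=
    PTime.fst.comp (PTime.snd.comp PTime.fst)
  have ht : PTime (fun q : (List Bool × (ε × (List τ × β))) × τ × List τ => q.2.1) :=
    PTime.fst.comp PTime.snd
  have hr : PTime (fun q : (List Bool × (ε × (List τ × β))) × τ × List τ => q.2.2) :=
    PTime.snd.comp PTime.snd
  have hw : PTime (fun q : (List Bool × (ε × (List τ × β))) × τ × List τ => q.1.1) :=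
    PTime.fst.comp PTime.fst
  have hb : PTime (fun q : (List Bool × (ε × (List τ × β))) × τ × List τ => q.1.2.2.2) :=
    PTime.snd.comp (PTime.snd.comp (PTime.snd.comp PTime.fst))
  refine PTime.sum_elim
    (f := fun q : (List Bool × (ε × (List τ × β))) × τ × List τ => expand q.1.2.1 q.2.1)
    (g := fun q _ => ((q.2.2, upd q.1.2.1 q.2.1 q.1.1 q.1.2.2.2) : List τ × β))
    (h := fun q lr => ((lr.1 :: lr.2 :: q.2.2, q.1.2.2.2) : List τ × β))
    (he.comp (hE.pair ht)) ?_ ?_
  · exact (hr.comp PTime.fst).pair ((hu.comp ((hE.pair ht).pair (hw.pair hb))).comp PTime.fst)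
  · exact (PTime.cons (PTime.fst.comp PTime.snd) (PTime.cons (PTime.snd.comp PTime.snd)
      (hr.comp PTime.fst))).pair (hb.comp PTime.fst)

theorem ansWT_empty (tm : FinTM2) (e₀ : tm.Γ tm.k₀ ≃ Bool) (e₁ : tm.Γ tm.k₁ ≃ Bool) :
    ansWT tm e₀ e₁ (([], (0, 0)) : Qry) = [] := by
  unfold ansWT ansW
  have h : ((fstep tm.m)^[(([], (0, 0)) : Qry).2.1 * 2 ^ (([], (0, 0)) : Qry).2.2]
      (cfg₀ tm.k₀ e₀.symm tm.main tm.initialState (([], (0, 0)) : Qry).1)).stk tm.k₁ = [] := by
    change (cfg₀ tm.k₀ e₀.symm tm.main tm.initialState []).stk tm.k₁ = []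
    unfold cfg₀
    change update (fun _ => []) tm.k₀ (([] : List Bool).map e₀.symm) tm.k₁ = []
    by_cases hk : tm.k₁ = tm.k₀
    · have h1 : ∀ k, k = tm.k₀ → update (fun _ => []) tm.k₀ (([] : List Bool).map e₀.symm) k =
          ([] : List (tm.Γ k)) := by
        rintro k rfl
        rw [update_self]
        rfl
      exact h1 _ hk
    · rw [update_of_ne hk]
  rw [h]
  rfl

/-- Depth-first search with calls of a given machine at the leaves, word answers and an
accumulator. -/
theorem dfs_word (tm : FinTM2) (e₀ : tm.Γ tm.k₀ ≃ Bool) (e₁ : tm.Γ tm.k₁ ≃ Bool)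
    {init : List Bool → ε × (τ × β)} {expand : ε → τ → Qry ⊕ (τ × τ)}
    {upd : ε → τ → List Bool → β → β} {out : ε × β → List Bool}
    (hi : PTime init) (he : PTime (fun p : ε × τ => expand p.1 p.2))
    (hu : PTime (fun p : (ε × τ) × (List Bool × β) => upd p.1.1 p.1.2 p.2.1 p.2.2))
    (ho : PTime out) :
    ∃ (tm' : FinTM2) (e₀' : tm'.Γ tm'.k₀ ≃ Bool) (e₁' : tm'.Γ tm'.k₁ ≃ Bool)
      (P : Polynomial ℕ) (κ : ℕ),
      ∀ (x : List Bool) (Inv : τ → Prop) (InvB : β → Prop) (D W : τ → ℕ) (B R : ℕ),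
        (∀ s, Inv s → (∃ q, expand (init x).1 s = Sum.inl q ∧ qcost q ≤ R ∧
            (ansWT tm e₀ e₁ q).length ≤ B ∧
            ∀ b, InvB b → InvB (upd (init x).1 s (ansWT tm e₀ e₁ q) b)) ∨
          (∃ l r, expand (init x).1 s = Sum.inr (l, r) ∧ Inv l ∧ Inv r ∧
            D l + 1 ≤ D s ∧ D r + 1 ≤ D s ∧ 1 + W l + W r ≤ W s)) →
        (∀ s, 1 ≤ W s) → Inv (init x).2.1 → InvB (init x).2.2 → (∀ s, Inv s → sz s ≤ B) →
        (∀ b, InvB b → sz b ≤ B) → sz (init x).1 ≤ B →
        ∀ m : ℕ, P.eval x.length + W (init x).2.1 *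
          (P.eval (B + ((D (init x).2.1 + 1) * (B + 1) + 6)) + κ * (R + 2)) ≤ m →
        ∃ b', DfsRes (expand (init x).1) (ansWT tm e₀ e₁) (upd (init x).1) (init x).2.1
            (init x).2.2 b' ∧
          Nonempty (TM2OutputsInTime tm' (x.map e₀'.symm)
            (some ((out ((init x).1, b')).map e₁'.symm)) m) := by
  have hinit : PTime (fun x : List Bool => (((init x).1, ([(init x).2.1], (init x).2.2)) :
      ε × (List τ × β))) :=
    (PTime.fst.comp hi).pair ((PTime.cons (PTime.fst.comp (PTime.snd.comp hi))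
      (PTime.const [])).pair (PTime.snd.comp (PTime.snd.comp hi)))
  have hdn : PTime (fun s : ε × (List τ × β) => s.2.1.isEmpty) :=
    PTime.isEmpty (PTime.fst.comp PTime.snd)
  have hout : PTime (fun s : ε × (List τ × β) => out (s.1, s.2.2)) :=
    ho.comp (PTime.fst.pair (PTime.snd.comp PTime.snd))
  obtain ⟨tm', e₀', e₁', P, κ, h⟩ := oracle_machineW tm e₀ e₁ hinit
    (wquery_ptime he) (wnext_ptime he hu) hdn hout
  refine ⟨tm', e₀', e₁', P.comp (C 2 * X), κ, ?_⟩
  intro x Inv InvB D W B R hexp hW hI hIB hB hBb hBe m hm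
  obtain ⟨k, b', hk1, hkT, hdfs, hb', hpre, hres⟩ := wdfs_gen (expand (init x).1)
    (ansWT tm e₀ e₁) (upd (init x).1) Inv InvB D W
    (fun s hs => by
      rcases hexp s hs with ⟨q, h1, _, _, h2⟩ | h1
      · exact Or.inl ⟨q, h1, h2⟩
      · exact Or.inr h1) hW (D (init x).2.1) (init x).2.1 le_rfl hI (init x).2.2 hIB []
  refine ⟨b', hdfs, ?_⟩
  have hiter : ∀ i (s : ε × (List τ × β)),
      (fun s => wnext expand upd (ansWT tm e₀ e₁ (wquery expand s)) s)^[i] s =
        (s.1, (wstep (expand s.1) (ansWT tm e₀ e₁) (upd s.1))^[i] s.2) := by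
    intro i
    induction i with
    | zero => intro s; rfl
    | succ i ih =>
      intro s
      rw [Function.iterate_succ_apply, Function.iterate_succ_apply, wnext_eq, ih]
  set B' := B + ((D (init x).2.1 + 1) * (B + 1) + 6) with hB'
  have hsz : ∀ (pre : List τ) (b : β), pre.length ≤ D (init x).2.1 + 1 →
      (∀ t ∈ pre, Inv t) → InvB b → sz ((init x).1, (pre, b)) ≤ 2 * B' := by
    intro pre b hl hp hb
    have h1 := sz_list_le pre B (fun t ht => hB t (hp t ht))
    have h2 := hBb b hb
    have h3 : pre.length * (B + 1) ≤ (D (init x).2.1 + 1) * (B + 1) :=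
      Nat.mul_le_mul_right _ hl
    simp only [sz_pair]
    omega
  have hm' : P.eval x.length + k * (P.eval (2 * B') + κ * (R + 2)) ≤ m := by
    refine le_trans ?_ hm
    simp only [eval_comp, eval_mul, eval_C, eval_X]
    exact Nat.add_le_add (eval_mono P (by omega)) (Nat.mul_le_mul_right _ hkT)
  have hq : ∀ i, i < k → ∃ t, Inv t ∧ wquery expand ((init x).1,
      (wstep (expand (init x).1) (ansWT tm e₀ e₁) (upd (init x).1))^[i]
        ([(init x).2.1], (init x).2.2)) =
      (expand (init x).1 t).elim (fun q => q) (fun _ => ([], (0, 0))) := by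
    intro i hi
    obtain ⟨pre, b'', h0, _, hp, _, hpi⟩ := hpre i hi
    rcases pre with _ | ⟨t, pre⟩
    · exact absurd rfl h0
    · refine ⟨t, hp t List.mem_cons_self, ?_⟩
      rw [hpi]
      rfl
  have hfin := h x k (2 * B') (R + 2) hk1 (by
      intro i hi
      rw [hiter]
      rcases hi.eq_or_lt with rfl | hi
      · change sz ((init x).1, (wstep (expand (init x).1) (ansWT tm e₀ e₁)
          (upd (init x).1))^[i] ([(init x).2.1], (init x).2.2)) ≤ 2 * B'
        rw [hres]
        exact hsz [] b' (by simp) (by simp) hb'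
      · obtain ⟨pre, b'', _, hl, hp, hpb, hpi⟩ := hpre i hi
        change sz ((init x).1, (wstep (expand (init x).1) (ansWT tm e₀ e₁)
          (upd (init x).1))^[i] ([(init x).2.1], (init x).2.2)) ≤ 2 * B'
        rw [hpi, List.append_nil]
        exact hsz pre b'' hl hp hpb)
    (by
      intro i hi
      rw [hiter]
      obtain ⟨t, ht, hqt⟩ := hq i hi
      change (ansWT tm e₀ e₁ (wquery expand ((init x).1, (wstep (expand (init x).1)
        (ansWT tm e₀ e₁) (upd (init x).1))^[i] ([(init x).2.1], (init x).2.2)))).length ≤ _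
      rw [hqt]
      rcases hexp t ht with ⟨q, h1, _, h3, _⟩ | ⟨l, r, h1, _⟩
      · rw [h1]
        change (ansWT tm e₀ e₁ q).length ≤ _
        omega
      · rw [h1]
        change (ansWT tm e₀ e₁ (([], (0, 0)) : Qry)).length ≤ _
        rw [ansWT_empty]
        exact Nat.zero_le _)
    (by
      intro i hi
      rw [hiter]
      obtain ⟨t, ht, hqt⟩ := hq i hi
      change qcost (wquery expand ((init x).1, (wstep (expand (init x).1)
        (ansWT tm e₀ e₁) (upd (init x).1))^[i] ([(init x).2.1], (init x).2.2))) ≤ _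
      rw [hqt]
      rcases hexp t ht with ⟨q, h1, h2, _, _⟩ | ⟨l, r, h1, _⟩
      · rw [h1]
        change qcost q ≤ _
        omega
      · rw [h1]
        change qcost (([], (0, 0)) : Qry) ≤ _
        simp [qcost])
    (by
      intro i _ hi
      rw [hiter]
      obtain ⟨pre, b'', h0, _, _, _, hpi⟩ := hpre i hi
      change ((wstep (expand (init x).1) (ansWT tm e₀ e₁) (upd (init x).1))^[i]
        ([(init x).2.1], (init x).2.2)).1.isEmpty = false
      rw [hpi, List.append_nil]
      simp [h0])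
    (by
      rw [hiter]
      change ((wstep (expand (init x).1) (ansWT tm e₀ e₁) (upd (init x).1))^[k]
        ([(init x).2.1], (init x).2.2)).1.isEmpty = true
      rw [hres]
      rfl)
    m hm'
  rw [hiter] at hfin
  have e : (wstep (expand (init x).1) (ansWT tm e₀ e₁) (upd (init x).1))^[k]
      ([(init x).2.1], (init x).2.2) = ([], b') := hres
  simp only [e] at hfin
  exact hfin

end machine

end Pool.Agent.Lib.MP_87d05f_lc
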