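import Pool.Agent.Lib.MP_87d05f_lc.ND.Stm
import Pool.Agent.Lib.MP_87d05f_lc.ND.Dfs
import Pool.Agent.Lib.MP_87d05f_lc.KMain

set_option autoImplicit false

/-!
# Vertex deletion problems on all graphs: definitions

The tree searched by the machine for all graphs (no bound for the degrees): the root has two
children, the root of a sparsification tree for the copies (as positive clauses) with calls of the
search machine of a payoff language at the leaves, and the root of a bounded search tree which finds
solutions with at most `n / B` vertices. The best solution found is kept.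
-/

namespace Pool.Agent.Lib.MP_87d05f_lc.ND

open Pool.Agent.PolyTime Function Turing

/-- The environment: the end points of the edges (with repetitions), the copies, the clauses. -/
abbrev EnvA : Type := List Wd × (List (List Wd) × KEnv Wd)

/-- the environment of a graph: the clause of a copy consists of the positive literals of its
vertices -/
noncomputable def envA (FL : List FG) (E : List (Wd × Wd)) : EnvA :=
  (ends E, (cps FL E, mkK ((cps FL E).map (fun t => t.map (fun w => (true, w))))))

/-- nodes of the bounded search tree: chosen vertices; remaining options of a copy; budget -/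
abbrev SNd : Type := List Wd × (Option (List Wd) × ℕ)

/-- nodes: the root `none`, nodes of the sparsification tree, nodes of the bounded search tree -/
abbrev NdA : Type := Option (KNd Wd ⊕ SNd)

/-- the set meets the copy -/
def hitB (S t : List Wd) : Bool := t.any (fun w => decide (w ∈ S))

/-- the set meets all copies -/
def hitsA (K : List (List Wd)) (S : List Wd) : Bool := K.all (fun t => hitB S t)

/-- choose the first option or skip it -/
def brS (S t : List Wd) (n : ℕ) : Option (SNd × SNd) :=
  (List.casesOn t none (fun w r => some ((w :: S, (none, n - 1)), (S, (some r, n)))))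

/-- the children of a node of the bounded search tree -/
def expS (K : List (List Wd)) (s : SNd) : Option (SNd × SNd) :=
  bif decide (s.2.2 = 0) then none else
    (Option.casesOn s.2.1
      (Option.casesOn (K.find? (fun t => !(hitB s.1 t))) none (fun t => brS s.1 t s.2.2))
      (fun t => brS s.1 t s.2.2))

/-- the constraints at a leaf: `(0, [w])` for the vertices and `(k, c)` for the different
types -/
def consA (e : EnvA) (s : KNd Wd) : List (ℕ × List Wd) :=
  (ded e.1).map (fun w => (0, [w])) ++
    (ded (e.2.2.1.map (fun c => ktcl s c))).map (fun c => (c.length, c.map (fun l => l.2)))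

/-- the instance at a leaf, in the form of `conW` -/
def insA (e : EnvA) (s : KNd Wd) : List (ℕ × (ℕ × List Wd)) := (consA e s).map (fun c => (0, c))

/-- the query at a leaf -/
def qryA (k C d b' : ℕ) (e : EnvA) (s : KNd Wd) : Qry :=
  (encW ((insA e s).map (conW k)), (C * ((encW ((insA e s).map (conW k))).length + 1) ^ d,
    mydiv (insA e s).length b'))

/-- the tree -/
def expA (k M B C d b' : ℕ) (e : EnvA) (t : NdA) : Qry ⊕ (NdA × NdA) :=
  (Option.casesOn t
    (Sum.inr (some (Sum.inl []), some (Sum.inr ([], (none, mydiv (ded e.1).length B)))))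
    (fun u => Sum.elim
      (fun s => (Option.casesOn (krc M e.2.2 s k) (Sum.inl (qryA k C d b' e s))
        (fun r => Sum.inr (some (Sum.inl r.1), some (Sum.inl r.2))) : Qry ⊕ (NdA × NdA)))
      (fun s => (Option.casesOn (expS e.2.1 s) (Sum.inl ([], (0, 0)))
        (fun r => Sum.inr (some (Sum.inr r.1), some (Sum.inr r.2))) : Qry ⊕ (NdA × NdA))) u))

/-- the candidate of a leaf, for the answer `w` to its query -/
def candA (e : EnvA) (t : NdA) (w : List Bool) : List Wd :=
  (Option.casesOn t (ded e.1) (fun u => Sum.elim
    (fun s => ded (fstZ 0 (disV (insA e s) (convV w)))) (fun s => s.1) u))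

/-- the better of two sets -/
def updA (e : EnvA) (t : NdA) (w : List Bool) (β : List Wd) : List Wd :=
  bif decide ((candA e t w).length < β.length) && hitsA e.2.1 (candA e t w) then candA e t w
    else β

/-- the initial state -/
noncomputable def initA (FL : List FG) (x : List Bool) : EnvA × (NdA × List Wd) :=
  (envA FL (edW x), (none, ded (ends (edW x))))

/-- the output -/
def outA (y : EnvA × List Wd) : List Bool := y.1.1.map (fun v => decide (v ∈ y.2))

/-- good environments -/
structure EOk (k : ℕ) (e : EnvA) : Prop where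
  wf : KWF k e.2.2
  num : e.2.2.2.length ≤ (ded e.1).length
  pos : ∀ l ∈ e.2.2.2, l.1 = true ∧ l.2 ∈ e.1
  len : ∀ t ∈ e.2.1, 1 ≤ t.length ∧ t.length ≤ k ∧ ∀ w ∈ t, w ∈ e.1
  cl : ∀ t ∈ e.2.1, ∃ c ∈ e.2.2.1, ∀ l ∈ c, l.2 ∈ t
  sat : ∀ a : Wd → Bool, (∀ t ∈ e.2.1, ∃ w ∈ t, a w = true) → ∀ c ∈ e.2.2.1, ∃ l ∈ c, tr a l

/-- the node `u` is reached from the node `t` -/
inductive Rch {τ : Type} (ex : τ → Qry ⊕ (τ × τ)) : τ → τ → Prop
  | refl (t : τ) : Rch ex t t
  | left {t l r u : τ} : ex t = Sum.inr (l, r) → Rch ex l u → Rch ex t u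
  | right {t l r u : τ} : ex t = Sum.inr (l, r) → Rch ex r u → Rch ex t u

/-- the invariant of the nodes, `N` the budget at the root -/
def InvA (k M : ℕ) (e : EnvA) (N : ℕ) : NdA → Prop
  | none => True
  | some (Sum.inl s) => KOk k M e.2.2 s
  | some (Sum.inr s) => s.1.length + s.2.2 ≤ N ∧ (∀ w ∈ s.1, w ∈ e.1) ∧
      ∀ r, s.2.1 = some r → r.length ≤ k ∧ ∀ w ∈ r, w ∈ e.1

/-- the weight of a node of the bounded search tree -/
def WtS (k : ℕ) (s : SNd) : ℕ :=
  match s.2.2, s.2.1 with
  | 0, _ => 1
  | n + 1, none => (2 * k + 2) ^ (n + 1)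
  | n + 1, some r => 1 + r.length * (1 + (2 * k + 2) ^ n)

/-- the depth of a node of the bounded search tree -/
def DpS (k : ℕ) (s : SNd) : ℕ :=
  match s.2.2, s.2.1 with
  | 0, _ => 0
  | n + 1, none => (k + 1) * (n + 1)
  | n + 1, some r => (k + 1) * n + r.length

/-- the weight of a node -/
def WtA (T : ℕ → ℕ) (k M : ℕ) (e : EnvA) (N : ℕ) : NdA → ℕ
  | none => 1 + T (KPot k M e.2.2 []) + (2 * k + 2) ^ N
  | some (Sum.inl s) => T (KPot k M e.2.2 s)
  | some (Sum.inr s) => WtS k s

/-- the depth of a node -/
def DpA (k M : ℕ) (e : EnvA) (N : ℕ) : NdA → ℕ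
  | none => 1 + KPot k M e.2.2 [] + (k + 1) * N
  | some (Sum.inl s) => KPot k M e.2.2 s
  | some (Sum.inr s) => DpS k s

end Pool.Agent.Lib.MP_87d05f_lc.ND
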