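import Pool.Agent.Lib.MP_87d05f_lc.ND.Stm2

set_option autoImplicit false

/-!
# Vertex deletion problems on all graphs, isolated vertices included: definitions

Graphs are given by the list `V` of the vertices and the list `E` of the edges.
-/

namespace Pool.Agent.Lib.MP_87d05f_lc.ND

open Pool.Agent.PolyTime Function Turing

section gv

variable {T : Type}

/-- the graph with the vertices `V` and the edges `E`, without the vertices `v` with `a v = true`,
has an induced subgraph isomorphic to `H` -/
def HasV (V : List T) (E : List (T × T)) (a : T → Bool) (H : FG) : Prop :=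
  ∃ f : Fin H.1 → T, Injective f ∧ (∀ i, f i ∈ V ∧ a (f i) = false) ∧
    ∀ i j, H.2.Adj i j ↔ ((f i, f j) ∈ E ∨ (f j, f i) ∈ E)

/-- solutions -/
def SolV (FF : Set FG) (V : List T) (E : List (T × T)) (a : T → Bool) : Prop :=
  ∀ H ∈ FF, ¬ HasV V E a H

/-- the induced copies of `H` -/
noncomputable def copV [DecidableEq T] [Inhabited T] (H : FG) (V : List T) (E : List (T × T)) :
    List (List T) :=
  (tup V H.1).filter (isCopy (patH H) E)

/-- the copies of the members of a family -/
noncomputable def cpsV [DecidableEq T] [Inhabited T] (G : List FG) (V : List T)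
    (E : List (T × T)) : List (List T) :=
  G.flatMap (fun H => copV H V E)

/-- the edges of the complement: all pairs of vertices of `V`, the first before the second, that
are not adjacent -/
def cplE [DecidableEq T] : List T → List (T × T) → List (T × T)
  | [], _ => []
  | v :: V, E => ((V.filter (fun w => !(decide ((v, w) ∈ E) || decide ((w, v) ∈ E)))).map
      (fun w => (v, w))) ++ cplE V E

end gv

/-- the complements of the members -/
def cFF (FF : Set FG) : Set FG := {H | (⟨H.1, H.2ᶜ⟩ : FG) ∈ FF}

/-- graphs: the vertices are different, the edges are pairs of different vertices, no edge occurs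
twice -/
def VGV (I : List ℕ × List (ℕ × ℕ)) : Prop :=
  I.1.Nodup ∧ (∀ e ∈ I.2, e.1 ≠ e.2 ∧ e.1 ∈ I.1 ∧ e.2 ∈ I.1) ∧
    I.2.Pairwise (fun e f => e ≠ f ∧ e ≠ (f.2, f.1))

/-- the code of a graph: one line with the vertices, one line for every edge -/
def enV (I : List ℕ × List (ℕ × ℕ)) : List Bool :=
  encW (I.1.map Nat.bits :: I.2.map (fun e => [Nat.bits e.1, Nat.bits e.2]))

/-- good answers: the indicator function, on the vertices, of a solution that is nearly as small
as possible -/
def goodV (FF : Set FG) (ε : ℚ) (I : List ℕ × List (ℕ × ℕ)) (w : List Bool) : Prop :=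
  ∃ a : ℕ → Bool, w = I.1.map a ∧ SolV FF I.1 I.2 a ∧
    ∀ a' : ℕ → Bool, SolV FF I.1 I.2 a' →
      (((I.1.filter a).length : ℕ) : ℚ) ≤ (1 + ε) * (((I.1.filter a').length : ℕ) : ℚ)

/-- the vertices, from the input -/
def verW (x : List Bool) : List Wd := (parseW x).headD []

/-- the edges, from the input -/
def edgW (x : List Bool) : List (Wd × Wd) :=
  (parseW x).tail.map (fun c => (c.headD [], c.tail.headD []))

/-- the environment of a graph (see `envA`) -/
noncomputable def envB (FL : List FG) (V : List Wd) (E : List (Wd × Wd)) : EnvA :=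
  (V, (cpsV FL V E, mkK ((cpsV FL V E).map (fun t => t.map (fun w => (true, w))))))

/-- the initial state -/
noncomputable def initB (FL : List FG) (x : List Bool) : EnvA × (NdA × List Wd) :=
  (envB FL (verW x) (edgW x), (none, ded (verW x)))

/-- no search machine on all graphs, for some parameters -/
def DelVHard (FF : Set FG) : Prop :=
  ∃ ε : ℚ, 0 < ε ∧ ∃ b : ℕ, 0 < b ∧ ¬ GFind enV VGV (goodV FF ε) (fun I => I.1.length) b

end Pool.Agent.Lib.MP_87d05f_lc.ND
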