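import Pool.Agent.Lib.MP_87d05f_lc.ND.Defs2

set_option autoImplicit false

/-!
Project ND, part 2 (MP_87d05f_lc, vertex deletion problems on ALL graphs, no bound for the degrees): statements of the pieces with
complete proofs in words. `R_x` is a conclusion, `S_x` the statement to be proved. Each piece is proved in its own file
`ND/Q/x.lean` as `theorem q_x : S_x` (namespace `Pool.Agent.Lib.MP_87d05f_lc.ND`, import `ND.Stm2`, plus, if useful, files
`ND.P.*`).

THEOREM (R_allA). If Q1 fails (so that every payoff language has a search machine, `Q_find`), then for every finite family `FL` of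
graphs with at least one vertex and all rationals `p / q > 0` and all `b` there is a machine that finds on every graph a set whose deletion
leaves no member of `FL` as an induced subgraph, of size at most `1 + p / q` times the minimum, in time `C (L+1)^e 2^(n/b)`.
-/

namespace Pool.Agent.Lib.MP_87d05f_lc.ND

open Pool.Agent.PolyTime Function Turing

/-- The environment of a graph is good. -/
def R_env : Prop := ∀ (FL : List FG) (k : ℕ), (∀ H ∈ FL, 1 ≤ H.1 ∧ H.1 ≤ k) →
  ∀ E : List (Wd × Wd), EOk k (envA FL E)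

/-- [ND env] Proof. Let `cl = (cps FL E).map (fun t => t.map (fun w => (true, w)))`, so that `e.2.2 = mkK cl`. By R_copy every copy `t` has
`H.1` elements for some `H ∈ FL`, all in `ends E`. `wf`: `mkK_wf` (`KTypes.lean`); `[] ∉ (mkK cl).1` because a clause `can (ded cl.flatten) c` contains
all literals of `c ≠ []` (`mem_can_of`). `num`: `ded cl.flatten` has no duplicates, all its elements are `(true, w)` with `w ∈ ends E`, so it is no longer
than `ded (ends E)` (`nodup_length_le` after the injective map `Prod.snd`, or cardinalities). `pos`, `len`: see above. `cl`: the clause of the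
copy `t`, `mem_can_of`. `sat`: `mkK_sat` with `tr a (true, w) ↔ a w = true`. -/
def S_env : Prop := R_copy → R_env

/-- The accumulator is at least as good as all candidates. -/
def R_best : Prop := ∀ (e : EnvA) (ex : NdA → Qry ⊕ (NdA × NdA)) (an : Qry → List Bool) (t : NdA)
  (β β' : List Wd), DfsRes ex an (updA e) t β β' →
    (hitsA e.2.1 β = true → hitsA e.2.1 β' = true) ∧ β'.length ≤ β.length ∧
    ∀ (u : NdA) (q : Qry), Rch ex t u → ex u = Sum.inl q → hitsA e.2.1 (candA e u (an q)) = true →
      β'.length ≤ (candA e u (an q)).length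

/-- [ND best] Proof. Induction on `DfsRes`. Leaf: `Rch ex t u` with `ex t = inl q'` implies `u = t` (cases), and `updA` takes the candidate if it is
shorter and meets all copies. Inner node: `Rch ex t u` with `ex u = inl q` is through `l` or `r` (`ex t = inr (l, r)`, so `u ≠ t`); `β2 ≤ β1`. -/
def S_best : Prop := R_best

/-- The bounded search tree finds a solution that is at most as large as any given solution of size at most `n`. -/
def R_small : Prop := ∀ (k M B C d b' : ℕ) (e : EnvA) (A : Finset Wd) (n : ℕ), A.card ≤ n →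
  (∀ t ∈ e.2.1, ∃ w ∈ t, w ∈ A) →
  ∃ u : SNd, Rch (expA k M B C d b' e) (some (Sum.inr ([], (none, n)))) (some (Sum.inr u)) ∧
    expA k M B C d b' e (some (Sum.inr u)) = Sum.inl ([], (0, 0)) ∧
    hitsA e.2.1 u.1 = true ∧ u.1.length ≤ A.card

/-- [ND small] Proof. Call a node `(S, (o, n))` good if `∀ w ∈ S, w ∈ A`, `S.length + #(A \ S.toFinset) ≤ #A`, `#(A \ S.toFinset) ≤ n`, and, if
`o = some r`, some `w ∈ r` is in `A \ S.toFinset`. Claim: from a good node a leaf `u` as required is reached. Strong induction on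
`n` and then on the length of `r` (0 for... treat `o = none` after `o = some r` for smaller `n`: from `none` one goes to a node with `n - 1` or to `some r` with the same `n`, from `some
r` to `n - 1` or to a shorter `r`; measure: lexicographic `(n, [o = none], r.length)`, or prove for fixed `n` first the statement for all `some r` by
induction on `r` from the statement for `(none, n - 1)`, then the statement for `none`). If `n = 0`: `A ⊆ S`, so `S` meets all copies, `o = none`, leaf with
`S.length ≤ #A`. `n ≥ 1`, `o = none`: if `find?` gives `none`, `S` meets all copies: leaf. Otherwise it gives a copy `t` not met by `S`; some `w' ∈ t` is in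
`A`, not in `S`; `t = w :: r`; if `w ∈ A` go left (`w ∉ S`; the set `A \ S` loses `w`), otherwise go right, `w' ∈ r`. `o = some (w :: r)`: the same; if `w ∈ A` and `w ∉ S` go left, otherwise
right. -/
def S_small : Prop := R_small

/-- The sparsification tree has a leaf all of whose clauses are satisfied by a given solution. -/
def R_ipz : Prop := ∀ (k M B C d b' : ℕ) (e : EnvA), 2 ≤ k → 1 ≤ M → EOk k e → ∀ a : Wd → Bool,
  (∀ t ∈ e.2.1, ∃ w ∈ t, a w = true) →
  ∃ s : KNd Wd, Rch (expA k M B C d b' e) (some (Sum.inl [])) (some (Sum.inl s)) ∧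
    krc M e.2.2 s k = none ∧ KOk k M e.2.2 s ∧ ∀ S ∈ s, ∃ l ∈ S, tr a l

/-- [ND ipz] Proof. Strong induction on `KPot k M e.2.2 s` for the nodes `s` with `KOk k M e.2.2 s` and all `S ∈ s` satisfied; start with `s = []`
(`kok_nil`). `krc_ok` (`KBranch.lean`): either `krc = none` (done, `refl`), or `krc = some (l, r)` with `KOk` and smaller potential for `l` and `r`
(`KPot l + 1 ≤ KPot s`, `KPot r + M^(k-1) ≤ KPot s`, `M ≥ 1`); by `krc_sat` (clauses satisfied: `EOk.sat`) all clauses of `l` or of `r` are
satisfied. `expA .. (some (inl s))` is `inr (some (inl l), some (inl r))` by unfolding. -/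
def S_ipz : Prop := R_ipz

/-- The constraints at a leaf. -/
def R_leafA : Prop := ∀ (k M : ℕ) (e : EnvA) (s : KNd Wd), 2 ≤ k → 1 ≤ M → EOk k e →
  KOk k M e.2.2 s → krc M e.2.2 s k = none →
  (consA e s).length ≤ (1 + k * M ^ (k - 1)) * (ded e.1).length ∧
  (∀ r ∈ consA e s, (r.1 = 0 ∧ r.2.length = 1) ∨ (r.1 = r.2.length ∧ 1 ≤ r.1 ∧ r.1 ≤ k)) ∧
  (∀ b : Wd → Bool, hitsA e.2.1 (ded (fst0 (consA e s) b)) = true ∧
    (ded (fst0 (consA e s) b)).length ≤ (consA e s).countP (fun r => vio r.1 (r.2.map b))) ∧
  ∀ a : Wd → Bool, (∀ S ∈ s, ∃ l ∈ S, tr a l) → (∀ t ∈ e.2.1, ∃ w ∈ t, a w = true) →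
    (consA e s).countP (fun r => vio r.1 (r.2.map (fun w => !(a w)))) ≤
      ((ded e.1).filter a).length

/-- [ND leafA] Proof. `krc_ok` gives from `krc = none` that no flower exists, so `ktypes_le` (`KTypes.lean`): `(ded (e.2.2.1.map (ktcl s))).length ≤ k * M^(k-1) * e.2.2.2.length`,
and `e.2.2.2.length ≤ (ded e.1).length`. Second statement: a type is `ktcl s c` for a clause `c`: length at most `k` (`ktcl_length`), not empty (`ktcl_cases`: a clause, `KWF.ne`, or a
member of `s`, `KInv.ne`). Third statement: let `F = fst0 (consA e s) b`. `(fst0 ..).length = countP` (`List.countP_eq_length_filter`), `ded` does not make it longer. Let `t` be a copy, `c` its clause (`EOk.cl`),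
`c' = ktcl s c` its type: `l.2 ∈ t` for all `l ∈ c'` (`ktcl_sub`), and `l.2 ∈ e.1` (`EOk.pos`, `KWF.can`). If `b l.2 = true` for all `l ∈ c'`, the constraint `(c'.length, ..)` is
violated (`c' ≠ []`), its first vertex is in `F` and in `t`. Otherwise `b l.2 = false` for some `l ∈ c'`; the constraint `(0, [l.2])` is violated and `l.2 ∈ F`. Fourth statement: the constraint `(0, [w])` is violated
for `!a` iff `a w = true`: these are `((ded e.1).filter a).length`; no type `c'` is violated: some `l ∈ c'` has `tr a l` (`ktcl_sat` with `EOk.sat`), `l.1 = true` because `l ∈ e.2.2.2` (`c'` is a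
sublist of `e.2.2.2`: `KWF.can`, `KOk.can`), so `a l.2 = true`. -/
def S_leafA : Prop := R_leafA

/-- The answers to the queries. -/
def R_ansA : Prop := ∀ (k M p q : ℕ) (e : EnvA) (s : KNd Wd), 2 ≤ k → 1 ≤ M → 0 < p → p < q →
  EOk k e → KOk k M e.2.2 s → krc M e.2.2 s k = none →
  ∃ F : List (Con (arD k)), codeC F = encW ((insA e s).map (conW k)) ∧
    F.length = (insA e s).length ∧
    ∀ w : List Bool, goodMax (phiD k) ((p : ℚ) / (q : ℕ)) F w →
      w.length ≤ 2 * ((k + 1) * (insA e s).length) ∧
      hitsA e.2.1 (candA e (some (Sum.inl s)) w) = true ∧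
      ∀ a : Wd → Bool, (∀ S ∈ s, ∃ l ∈ S, tr a l) → (∀ t ∈ e.2.1, ∃ w ∈ t, a w = true) →
        q * (candA e (some (Sum.inl s)) w).length ≤
          q * ((ded e.1).filter a).length + p * (insA e s).length

/-- [ND ansA] Proof. `F = (insA e s).map (instC k)` (`ND/P/inst.lean`, import it); every `r ∈ insA e s` satisfies `instG k r` by R_leafA, so `codeC F = encW (F.map wordC)` (`codeC_eq`)
`= encW ((insA e s).map (conW k))` (`inst_word`). Let `w = outW F α` be good. `convV w` is the list of the values of the places (`R_conv`, `p_conv` in `ND/P/conv.lean`) `= (insA e s).flatMap (fun r => r.2.2.map b)` with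
`b w = decide (α (unbits (nb w 0)) = 1)` (as in `p_inst`, `inst_ofFn`), and `w.length ≤ 2 * (number of places) ≤ 2 (k + 1) (insA e s).length`. Alignment: `disV ins bs = ins.map (fun r => (r, r.2.2.map b))` for `bs = ins.flatMap (fun r =>
r.2.2.map b)` (induction; see `near.lean`), so `fstZ 0 (disV ..) = fst0 (consA e s) b` and the candidate is `ded (fst0 (consA e s) b)`: it meets all copies, and its length is at most `viol b` (R_leafA). By `inst_val`
`valC (phiD k) α F + viol b = (insA e s).length`; for `a` as given there is `α'` with `decide (α' (unbits (nb w 0)) = 1) = !(a w)` for all `w` (last part of `p_inst`; `nb_inj`), so `valC α' F = (insA e s).length - viol (!a)`, `viol (!a) ≤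
((ded e.1).filter a).length` (R_leafA). `(1 - p/q) valC α' ≤ valC α` gives `q valC α' ≤ q valC α + p valC α' ≤ q valC α + p (insA e s).length`, hence `q viol b ≤ q viol (!a) + p (insA e s).length`. -/
def S_ansA : Prop := R_leafA → R_ansA

/-- The search tree. -/
def R_tree : Prop := ∀ (k M B C d b' : ℕ) (T : ℕ → ℕ), 2 ≤ k → 1 ≤ M → (∀ m, 1 ≤ T m) →
  (∀ m m₁ m₂, m₁ + 1 ≤ m → m₂ + M ^ (k - 1) ≤ m → 1 + T m₁ + T m₂ ≤ T m) →
  ∀ (e : EnvA) (N : ℕ), EOk k e → N = mydiv (ded e.1).length B →
    (∀ t, 1 ≤ WtA T k M e N t) ∧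
    ∀ t, InvA k M e N t →
      (∃ s, t = some (Sum.inl s) ∧ KOk k M e.2.2 s ∧ krc M e.2.2 s k = none ∧
        expA k M B C d b' e t = Sum.inl (qryA k C d b' e s)) ∨
      ((∃ s, t = some (Sum.inr s)) ∧ expA k M B C d b' e t = Sum.inl ([], (0, 0))) ∨
      ∃ l r, expA k M B C d b' e t = Sum.inr (l, r) ∧ InvA k M e N l ∧ InvA k M e N r ∧
        DpA k M e N l + 1 ≤ DpA k M e N t ∧ DpA k M e N r + 1 ≤ DpA k M e N t ∧
        1 + WtA T k M e N l + WtA T k M e N r ≤ WtA T k M e N t

/-- [ND tree] Proof. Cases on `t`. `none`: the children are `some (inl [])` (`kok_nil`) and `some (inr ([], (none, N)))`; `WtS k ([], (none, N)) = (2k+2)^N`, `DpS = (k+1) N` also for `N = 0`. `some (inl s)`: `krc_ok` (`M^(k-1) ≥ 1`).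
`some (inr s)`: `s = (S, (o, n))`. `n = 0`: `expS = none`. `n = n' + 1`, `X = (2k+2)^n'`. `o = some (w :: r)`: children `(w :: S, (none, n'))` (weight `X` also for `n' = 0`, depth `(k+1) n'`) and `(S, (some r, n' + 1))` (weight
`1 + |r| (1 + X)`, depth `(k+1) n' + |r|`): `1 + X + (1 + |r| (1 + X)) = 1 + (|r| + 1)(1 + X)`. `o = some []`: leaf. `o = none`: leaf if all copies are met, otherwise with the copy `t = w :: r` found (`|t| ≤ k`, `t ≠ []` by `EOk.len`): weights `X` and `1 +
|r| (1 + X)`, `|r| ≤ k - 1`, and `1 + X + 1 + (k - 1)(1 + X) ≤ (2k + 2) X`; depths `(k+1) n'` and `(k+1) n' + |r|`, both less than `(k+1)(n'+1)`. Invariant: `|w :: S| + n' = |S| + n`. -/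
def S_tree : Prop := R_tree

/-- Everything is computable in polynomial time. -/
def R_ptE : Prop := (∀ FL : List FG, PTime (initA FL) ∧ PTime (fun x => envA FL (edW x))) ∧
  (∀ k M B C d b' : ℕ, PTime (fun y : EnvA × NdA => expA k M B C d b' y.1 y.2)) ∧
  (∀ k : ℕ, PTime (fun y : EnvA × KNd Wd => encW ((insA y.1 y.2).map (conW k)))) ∧
  PTime (fun y : (EnvA × NdA) × List Bool => candA y.1.1 y.1.2 y.2) ∧
  PTime (fun y : (EnvA × NdA) × (List Bool × List Wd) => updA y.1.1 y.1.2 y.2.1 y.2.2) ∧
  PTime outA

/-- [ND ptE] Proof. `cps` by R_ptC, `edW` by R_ptI, `mkK_ptime`, `krc_ptime`, `ktcl_ptime` (`KTypes.lean`), `ded_ptime`, `mydiv_ptime`, `convV_ptime`; `conW` as in `ND/P/ptI.lean`, `disV`, `fstZ` as in `ND/P/ptO.lean` (take the lemmas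
from these files, import them); `PTime.option_casesOn`, `PTime.list_casesOn`, `PTime.sum_elim`, `PTime.find?`, `PTime.natPow_const`. -/
def S_ptE : Prop := R_ptC → R_ptI → R_ptE

/-- The sizes of the nodes. -/
def R_size : Prop := ∀ k M : ℕ, 2 ≤ k → 1 ≤ M → ∃ f : ℕ → ℕ, PolyB f ∧ Monotone f ∧
  ∀ (e : EnvA) (N L : ℕ) (t : NdA), EOk k e → InvA k M e N t → N ≤ L → sz e ≤ L → sz t ≤ f L

/-- [ND size] Proof. `sz_knode_le` (`KTypes.lean`) with `sz e.2.2 ≤ sz e ≤ L` for `some (inl s)`. `some (inr (S, (o, n)))`: `S.length ≤ N ≤ L`, `n ≤ L`, the elements of `S` are in `e.1`, so their size is at most `L` (`sz_le_of_mem`): `sz S ≤ L (L + 1) + 1`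
(`sz_list_le`); `sz o`: at most `k (L + 1) + 10`; `sz n` is linear in `n` (see the lemmas in `PolyTime/Typed.lean`). `f L = c * (L + 1)^2` with suitable `c`, or a sum; `PolyB` lemmas `PolyB.add` etc. (`GSearch.lean` or where `PolyB` is defined). -/
def S_size : Prop := R_size

/-- Search machines for finite families on all graphs. -/
def R_allA : Prop := Q_find → ∀ FL : List FG, (∀ H ∈ FL, 1 ≤ H.1) → ∀ p q b : ℕ, 0 < p → 0 < q →
  0 < b → GFind enG (fun _ => True) (goodDel {H | H ∈ FL} ((p : ℚ) / (q : ℕ))) nvG b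

/-- [ND allA] (assembly, helper14). -/
def S_allA : Prop := R_copy → R_hit → R_map → R_env → R_best → R_small → R_ipz → R_leafA → R_ansA →
  R_tree → R_ptE → R_size → R_allA

end Pool.Agent.Lib.MP_87d05f_lc.ND
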