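import Pool.Agent.Lib.MP_87d05f_lc.ND.Asm
import Pool.Agent.Lib.MP_87d05f_lc.ND.Stm2
import Pool.Agent.Lib.MP_87d05f_lc.ND.P.ord
import Pool.Agent.Lib.MP_87d05f_lc.ND.P.emb
import Pool.Agent.Lib.MP_87d05f_lc.ND.P.cnti
import Pool.Agent.Lib.MP_87d05f_lc.ND.P.cmp
import Pool.Agent.Lib.MP_87d05f_lc.ND.P.core
import Pool.Agent.Lib.MP_87d05f_lc.ND.P.lab
import Pool.Agent.Lib.MP_87d05f_lc.ND.P.pro
import Pool.Agent.Lib.MP_87d05f_lc.ND.P.gadj
import Pool.Agent.Lib.MP_87d05f_lc.ND.P.gshp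
import Pool.Agent.Lib.MP_87d05f_lc.ND.P.gloc
import Pool.Agent.Lib.MP_87d05f_lc.ND.P.gloop
import Pool.Agent.Lib.MP_87d05f_lc.ND.P.gemb
import Pool.Agent.Lib.MP_87d05f_lc.ND.P.gyes
import Pool.Agent.Lib.MP_87d05f_lc.ND.P.gysz
import Pool.Agent.Lib.MP_87d05f_lc.ND.P.gno
import Pool.Agent.Lib.MP_87d05f_lc.ND.P.gdeg
import Pool.Agent.Lib.MP_87d05f_lc.ND.P.nrm
import Pool.Agent.Lib.MP_87d05f_lc.ND.P.map
import Pool.Agent.Lib.MP_87d05f_lc.ND.P.conf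
import Pool.Agent.Lib.MP_87d05f_lc.ND.P.vc
import Pool.Agent.Lib.MP_87d05f_lc.ND.P.nmG
import Pool.Agent.Lib.MP_87d05f_lc.ND.P.ptA
import Pool.Agent.Lib.MP_87d05f_lc.ND.P.hard
import Pool.Agent.Lib.MP_87d05f_lc.ND.P.sepf
import Pool.Agent.Lib.MP_87d05f_lc.ND.P.copy
import Pool.Agent.Lib.MP_87d05f_lc.ND.P.hit
import Pool.Agent.Lib.MP_87d05f_lc.ND.P.ptC
import Pool.Agent.Lib.MP_87d05f_lc.ND.P.ptI
import Pool.Agent.Lib.MP_87d05f_lc.ND.Q.env
import Pool.Agent.Lib.MP_87d05f_lc.ND.Q.best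
import Pool.Agent.Lib.MP_87d05f_lc.ND.Q.small
import Pool.Agent.Lib.MP_87d05f_lc.ND.Q.ipz
import Pool.Agent.Lib.MP_87d05f_lc.ND.Q.leafA
import Pool.Agent.Lib.MP_87d05f_lc.ND.Q.ansA
import Pool.Agent.Lib.MP_87d05f_lc.ND.Q.tree
import Pool.Agent.Lib.MP_87d05f_lc.ND.Q.ptE
import Pool.Agent.Lib.MP_87d05f_lc.ND.Q.size
import Pool.Agent.Lib.MP_87d05f_lc.ND.Q.allA

set_option autoImplicit false

/-!
# Vertex deletion problems: the theorem for bounded degree and for all graphs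
-/

namespace Pool.Agent.Lib.MP_87d05f_lc.ND

open Pool.Agent.PolyTime Function Turing

/-- lists of edges of simple graphs -/
def VGr (E : List (ℕ × ℕ)) : Prop :=
  (∀ e ∈ E, e.1 ≠ e.2) ∧ E.Pairwise (fun e f => e ≠ f ∧ e ≠ (f.2, f.1))

/-- no search machine on all graphs, for some parameters -/
def DelAllHard (FF : Set FG) : Prop :=
  ∃ ε : ℚ, 0 < ε ∧ ∃ b : ℕ, 0 < b ∧ ¬ GFind enG VGr (goodDel FF ε) nvG b

theorem find_mono {I : Type} {en : I → List Bool} {V V' : I → Prop}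
    {good : I → List Bool → Prop} {μ : I → ℕ} {b : ℕ} (hV : ∀ F, V' F → V F)
    (h : GFind en V good μ b) : GFind en V' good μ b := by
  obtain ⟨C, e, tm, e₀, e₁, h⟩ := h
  exact ⟨C, e, tm, e₀, e₁, fun F hF => h F (hV F hF)⟩

theorem main_hard : R_hard := by
  have hcore : R_core := p_core p_ord p_emb p_cnti p_cmp
  have hemb : R_gemb := p_gemb p_gadj
  have hyes : R_gyes := p_gyes (p_gshp p_gadj) (p_gloc p_gadj) hemb p_gloop p_pro
  exact p_hard hcore p_lab hyes p_gysz (p_gno p_gadj hemb) p_gdeg p_gloop p_nrm p_map p_conf p_vc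
    p_nmG p_ptA

theorem main_all : R_allA := by
  have hhit : R_hit := p_hit p_copy
  have hI : R_ptI := p_ptI p_ptC
  have hleaf : R_leafA := q_leafA
  exact q_allA p_copy hhit p_map (q_env p_copy) q_best q_small q_ipz hleaf (q_ansA hleaf) q_tree
    (q_ptE p_ptC hI) q_size

theorem main_search (FF : Set FG) (h : DelHard FF) : DelAllHard FF := by
  obtain ⟨D, ε, h0, b, hb, h⟩ := h
  refine ⟨ε, h0, b, hb, fun hs => h ?_⟩
  obtain ⟨p, q, hp, hq, rfl⟩ := rat_pq' h0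
  exact p_sepf FF D p q b hq hb (find_mono (fun E hE => ⟨hE.1, hE.2.1⟩) hs)

theorem main_conv (FF : Set FG) (hf : FF.Finite) (h1 : ∀ H ∈ FF, H.2 ≠ ⊥)
    (h : DelAllHard FF) : GapETH := by
  by_contra hG
  obtain ⟨ε, h0, b, hb, h⟩ := h
  obtain ⟨p, q, hp, hq, rfl⟩ := rat_pq' h0
  refine h ?_
  have hFL : {H | H ∈ hf.toFinset.toList} = FF := by
    ext H
    simp
  have hv : ∀ H ∈ hf.toFinset.toList, 1 ≤ H.1 := by
    rintro ⟨n, H⟩ hH
    have hH' : (⟨n, H⟩ : FG) ∈ FF := by simpa using hH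
    rcases n with _ | n
    · exact absurd (Subsingleton.elim _ _) (h1 _ hH')
    · exact Nat.succ_le_succ (Nat.zero_le _)
  have := main_all (q_find hG) _ hv p q b hp hq hb
  rw [hFL] at this
  exact find_mono (fun _ _ => trivial) this

theorem main_del (FF : Set FG) (h0 : FF.Nonempty) (h1 : ∀ H ∈ FF, H.2 ≠ ⊥) :
    (GapETH → DelHard FF) ∧ (DelHard FF → DelAllHard FF) ∧
    (FF.Finite → DelAllHard FF → GapETH) :=
  ⟨main_hard FF h0 h1, main_search FF, fun hf h => main_conv FF hf h1 h⟩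

end Pool.Agent.Lib.MP_87d05f_lc.ND
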