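import Pool.Agent.Lib.MP_87d05f_lc.ND.Stm3

set_option autoImplicit false

/-!
Project ND, part 4 (MP_87d05f_lc): the threshold versions on all graphs. Pieces `sepC`, `sepD` (they replace `sepB`): file
`ND/R/x.lean`, `theorem r_x : S_x`.
-/

namespace Pool.Agent.Lib.MP_87d05f_lc.ND

open Pool.Agent.PolyTime Function Turing

/-- the code of a graph with a threshold -/
def enT (I : ℕ × (List ℕ × List (ℕ × ℕ))) : List Bool :=
  encW ([List.replicate I.1 true] :: I.2.1.map Nat.bits ::
    I.2.2.map (fun e => [Nat.bits e.1, Nat.bits e.2]))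

/-- some solution has at most `t` vertices -/
def YV (FF : Set FG) (I : ℕ × (List ℕ × List (ℕ × ℕ))) : Prop :=
  ∃ a : ℕ → Bool, SolV FF I.2.1 I.2.2 a ∧ (I.2.1.filter a).length ≤ I.1

/-- all solutions have more than `(1 + ε) t` vertices -/
def NV (FF : Set FG) (ε : ℚ) (I : ℕ × (List ℕ × List (ℕ × ℕ))) : Prop :=
  ∀ a : ℕ → Bool, SolV FF I.2.1 I.2.2 a → (1 + ε) * (I.1 : ℚ) < (((I.2.1.filter a).length : ℕ) : ℚ)

/-- separators on all graphs -/
def SepT (FF : Set FG) (ε : ℚ) (b : ℕ) : Prop :=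
  GSep enT (fun I => VGV I.2) (YV FF) (NV FF ε) (fun I => I.2.1.length) b

/-- separators on the graphs of maximum degree at most `D` -/
def SepTD (FF : Set FG) (D : ℕ) (ε : ℚ) (b : ℕ) : Prop :=
  GSep enT (fun I => VGV I.2 ∧ ∀ v, (I.2.2.flatMap (fun e => [e.1, e.2])).count v ≤ D) (YV FF)
    (NV FF ε) (fun I => I.2.1.length) b

/-- Graphs given by their edges, and their complements, as graphs with a list of vertices. -/
def R_sepC : Prop := ∀ (FF : Set FG) (D : ℕ) (ε : ℚ) (b : ℕ), 0 < b →
  (SepTD FF D ε b → GSep enCut (VDel D) (YDel FF) (NDel FF ε) nvCut b) ∧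
  (SepT FF ε b → GSep enCut (VDel D) (YDel (cFF FF)) (NDel (cFF FF) ε) nvCut b)

/-- [ND3 sepC] Proof. `transfer` (`Transfer.lean`) with `f x = encW ((parseW x).headD [] :: V :: E'.map (fun e => [e.1, e.2]))`, where `E = edgW x` (the edges of `x` in words), `V = ded (ends E)`, `E' = E` or `E' = cplE V E`, `h x = mydiv V.length b`. The instance is
`F' = (t, (V₀, E₀'))` with `V₀ = ded (ends E₀)` in numbers, `E₀' = E₀` or `cplE V₀ E₀`: `ded` and `cplE` commute with the injective map `Nat.bits` (prove for both a lemma by induction; `ded_map`, `ends_map` may exist in `ND/P/*.lean` or `CutRed.lean`), so `enT F' = f (enCut (t, E₀))`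
(`parseW_encW`; `wordE e = [Nat.bits e.1, Nat.bits e.2]`). `VGV F'.2`: `nodup_ded`, `VDel`, R_cplB. `(V₀.filter a).length = dsz E₀ a` (same proof as `allA_dsz` in `ND/Q/allA.lean`), `SolV FF V₀ E₀ a ↔ Sol FF E₀ a` because `v ∈ ded (ends E₀) ↔ v ∈ ends E₀`; by R_cplB `SolV FF V₀ (cplE V₀ E₀) a ↔
SolV (cFF FF) V₀ E₀ a`. -/
def S_sepC : Prop := R_cplB → R_ptV → R_sepC

/-- A search machine gives separators on all graphs. -/
def R_sepD : Prop := ∀ (FF : Set FG) (p q b : ℕ), 0 < q → 0 < b →
  GFind enV VGV (goodV FF ((p : ℚ) / (q : ℕ))) (fun I => I.1.length) b →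
  SepT FF ((p : ℚ) / (q : ℕ)) b

/-- [ND3 sepD] Proof. As `p_sepf` (`ND/P/sepf.lean`): `sep_of_find`, `find_transfer` with `f x = encW (parseW x).tail`, `h x = mydiv (verW (f x)).length b` (or `((parseW x).tail.headD []).length`), `out (x, w) = [decide (q * (w.filter id).length ≤ (q + p) * thI x)]`. For `w = V.map a` the number of true values is
`(V.filter a).length`. `|w| = |V| ≤` length of the code. If some solution has at most `t` vertices, the answer has at most `(1 + p/q) t`; if all solutions have more than `(1 + p/q) t`, so has the answer. -/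
def S_sepD : Prop := R_sepD

end Pool.Agent.Lib.MP_87d05f_lc.ND
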