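import Pool.Agent.Lib.MP_87d05f_lc.ND.Main2
import Pool.Agent.Lib.MP_87d05f_lc.ND.Stm4
import Pool.Agent.Lib.MP_87d05f_lc.ND.R.copB
import Pool.Agent.Lib.MP_87d05f_lc.ND.R.hitB
import Pool.Agent.Lib.MP_87d05f_lc.ND.R.envB
import Pool.Agent.Lib.MP_87d05f_lc.ND.R.mapB
import Pool.Agent.Lib.MP_87d05f_lc.ND.R.cplB
import Pool.Agent.Lib.MP_87d05f_lc.ND.R.ptV
import Pool.Agent.Lib.MP_87d05f_lc.ND.R.ram
import Pool.Agent.Lib.MP_87d05f_lc.ND.R.sepC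
import Pool.Agent.Lib.MP_87d05f_lc.ND.R.sepD
import Pool.Agent.Lib.MP_87d05f_lc.ND.R.allB

set_option autoImplicit false

/-!
# Vertex deletion problems: the final form for all nontrivial hereditary properties
-/

namespace Pool.Agent.Lib.MP_87d05f_lc.ND

open Pool.Agent.PolyTime Function Turing

/-- the threshold version is hard on all graphs -/
def HardT (FF : Set FG) : Prop := ∃ ε : ℚ, 0 < ε ∧ ∃ b : ℕ, 0 < b ∧ ¬ SepT FF ε b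

/-- the threshold version is hard in bounded degree -/
def HardTD (FF : Set FG) : Prop :=
  ∃ D : ℕ, ∃ ε : ℚ, 0 < ε ∧ ∃ b : ℕ, 0 < b ∧ ¬ SepTD FF D ε b

theorem sepT_mono {FF : Set FG} {D : ℕ} {ε : ℚ} {b : ℕ} (h : SepT FF ε b) : SepTD FF D ε b := by
  obtain ⟨C, e, tm, e₀, acc, rej, hne, h⟩ := h
  exact ⟨C, e, tm, e₀, acc, rej, hne, fun F hF => h F hF.1⟩

theorem main_ptV : R_ptV := by
  have hI : R_ptI := p_ptI p_ptC
  exact r_ptV p_ptC hI (q_ptE p_ptC hI)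

theorem main_sepC : R_sepC := r_sepC r_cplB main_ptV

theorem main_allB : R_allB := by
  have hI : R_ptI := p_ptI p_ptC
  have hleaf : R_leafA := q_leafA
  exact r_allB (r_hitB r_copB) r_mapB (r_envB r_copB) q_best q_small q_ipz hleaf (q_ansA hleaf)
    q_tree (q_ptE p_ptC hI) main_ptV q_size

theorem hardTD_of (FF : Set FG) (h0 : FF.Nonempty) (h1 : ∀ H ∈ FF, H.2 ≠ ⊥) (hG : GapETH) :
    HardTD FF := by
  obtain ⟨D, ε, he, b, hb, h⟩ := main_hard FF h0 h1 hG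
  exact ⟨D, ε, he, b, hb, fun hs => h ((main_sepC FF D ε b hb).1 hs)⟩

theorem cFF_bot {FF : Set FG} (h1 : ∀ H ∈ FF, H.2 ≠ ⊤) : ∀ H ∈ cFF FF, H.2 ≠ ⊥ := by
  intro H hH hb
  refine h1 _ hH ?_
  change H.2ᶜ = ⊤
  rw [hb, compl_bot]

theorem cFF_ne {FF : Set FG} (h0 : FF.Nonempty) : (cFF FF).Nonempty := by
  obtain ⟨H, hH⟩ := h0
  refine ⟨⟨H.1, H.2ᶜ⟩, ?_⟩
  change (⟨H.1, H.2ᶜᶜ⟩ : FG) ∈ FF
  rw [compl_compl]
  exact hH

theorem hardT_of (FF : Set FG) (h0 : FF.Nonempty)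
    (h1 : ∀ n : ℕ, ∃ G : FG, n ≤ G.1 ∧ ∀ H ∈ FF, IsEmpty (H.2 ↪g G.2)) (hG : GapETH) :
    HardT FF := by
  rcases r_ram FF h1 with h | h
  · obtain ⟨D, ε, he, b, hb, h⟩ := hardTD_of FF h0 h hG
    exact ⟨ε, he, b, hb, fun hs => h (sepT_mono hs)⟩
  · obtain ⟨D, ε, he, b, hb, h⟩ := main_hard (cFF FF) (cFF_ne h0) (cFF_bot h) hG
    exact ⟨ε, he, b, hb, fun hs => h ((main_sepC FF D ε b hb).2 hs)⟩

theorem search_of (FF : Set FG) (h : HardT FF) : DelVHard FF := by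
  obtain ⟨ε, h0, b, hb, h⟩ := h
  refine ⟨ε, h0, b, hb, fun hs => h ?_⟩
  obtain ⟨p, q, hp, hq, rfl⟩ := rat_pq' h0
  exact r_sepD FF p q b hq hb hs

theorem gap_of (FF : Set FG) (hf : FF.Finite)
    (h1 : ∀ n : ℕ, ∃ G : FG, n ≤ G.1 ∧ ∀ H ∈ FF, IsEmpty (H.2 ↪g G.2)) (h : DelVHard FF) :
    GapETH := by
  by_contra hG
  obtain ⟨ε, h0, b, hb, h⟩ := h
  obtain ⟨p, q, hp, hq, rfl⟩ := rat_pq' h0
  refine h ?_
  have hFL : {H | H ∈ hf.toFinset.toList} = FF := by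
    ext H
    simp
  have hv : ∀ H ∈ hf.toFinset.toList, 1 ≤ H.1 := by
    rintro ⟨n, H⟩ hH
    have hH' : (⟨n, H⟩ : FG) ∈ FF := by simpa using hH
    rcases n with _ | n
    · obtain ⟨G, _, hG'⟩ := h1 0
      refine ((hG' _ hH').false ?_).elim
      exact ⟨⟨fun i => i.elim0, fun i => i.elim0⟩, fun {i} => i.elim0⟩
    · exact Nat.succ_le_succ (Nat.zero_le _)
  have := main_allB (q_find hG) _ hv p q b hp hq hb
  rw [hFL] at this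
  exact this

theorem main_final (FF : Set FG) (h0 : FF.Nonempty)
    (h1 : ∀ n : ℕ, ∃ G : FG, n ≤ G.1 ∧ ∀ H ∈ FF, IsEmpty (H.2 ↪g G.2)) :
    (GapETH → HardT FF) ∧ (HardT FF → DelVHard FF) ∧ (FF.Finite → DelVHard FF → GapETH) ∧
    ((∀ H ∈ FF, H.2 ≠ ⊥) → GapETH → HardTD FF) :=
  ⟨hardT_of FF h0 h1, search_of FF, fun hf h => gap_of FF hf h1 h, fun h => hardTD_of FF h0 h⟩

end Pool.Agent.Lib.MP_87d05f_lc.ND
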