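import Pool.Agent.Lib.MP_87d05f_lc.ND.Defs

set_option autoImplicit false

/-!
Project ND (vertex deletion problems, MP_87d05f_lc): statements of the pieces with complete proofs in words. `R_x` is a
conclusion, `S_x` the statement to be proved. Each piece is proved in its own file `ND/P/x.lean` as
`theorem p_x : S_x` (namespace `Pool.Agent.Lib.MP_87d05f_lc.ND`, import `ND.Stm`).

THEOREM. For every finite nonempty set `FF` of finite graphs, each with at least one edge, the following are equivalent: Q1
(`GapETH`); for some `D`, `ε`, `b` there is no separator for `τ_FF(G) ≤ t` against `τ_FF(G) > (1 + ε) t` on graphs of maximum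
degree at most `D` in time `C (L+1)^e 2^(n/b)`; the same for search. Here `τ_FF(G)` is the least number of vertices whose
deletion leaves no induced subgraph isomorphic to a member of `FF`. For infinite `FF`: Q1 implies both.

Part A: Q1 implies hardness (Lewis-Yannakakis construction). Part B: if Q1 fails, there are search machines (payoff languages).
-/

namespace Pool.Agent.Lib.MP_87d05f_lc.ND

open Pool.Agent.PolyTime Function Turing

/-! ## A. Hardness -/

/-! ### A1. The core of a set of forbidden graphs -/

/-- The order of comparison at the largest difference is well-founded on functions with finite support. -/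
def R_ord : Prop := ∃ (Ω : Type) (_ : LinearOrder Ω) (_ : WellFoundedLT Ω) (P : (ℕ → ℕ) → Ω),
  ∀ f g : ℕ → ℕ, (∃ m, ∀ s, m < s → f s = 0) → (∃ m, ∀ s, m < s → g s = 0) → MLt f g → P f < P g

/-- [ND ord] Proof. `Ω = Lex (ℕᵒᵈ →₀ ℕ)`: Mathlib has the instances `Finsupp.Lex.linearOrder` and (for a linear index type with
`WellFoundedGT`) `Finsupp.Lex.wellFoundedLT`. `P f` is the finitely supported function `f` (`Finsupp.ofSupportFinite`, or
`Finsupp.onFinset`), 0 if `f` has infinite support. The first index in `ℕᵒᵈ` where two functions differ is the largest natural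
number where they differ, so `MLt f g` gives `toLex (P f) < toLex (P g)` (`Finsupp.lex_lt_iff` or similar). -/
def S_ord : Prop := R_ord

/-- Copies of the components give a copy of the graph. -/
def R_emb : Prop := ∀ (F : FG) (V : Type) (G : SimpleGraph V) (L : List FG)
  (ψ : (p : Fin F.1 × Fin L.length) → ((L.get p.2).2 ↪g G)),
  Indep G (fun p x => ψ p x) →
  (∀ C : F.2.ConnectedComponent, ∃ H ∈ L, Nonempty (F.2.induce C.supp ↪g H.2)) →
  Nonempty (F.2 ↪g G)

/-- [ND emb] Proof. For every component `C` of `F` choose a vertex `r C : Fin F.1` in it (`C.out` or so; `r` is injective), an index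
`i C : Fin L.length` and an embedding `e C : F.2.induce C.supp ↪g (L.get (i C)).2` (`List.mem_iff_get`). Map the vertex `x` with
component `C` to `ψ (r C, i C) (e C ⟨x, _⟩)`. Two vertices of the same component: `ψ` and `e` are embeddings. Two vertices
`x`, `y` of different components `C ≠ C'`: not adjacent in `F`, and `(r C, i C) ≠ (r C', i C')`, so the images are different
and not adjacent by `Indep`. (To avoid transport, work with `C := F.2.connectedComponentMk x` and do the case `C = C'` by
`subst`/generalisation: first prove the statement for a general function `comp : Fin F.1 → κ` and families indexed by `κ`.) -/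
def S_emb : Prop := R_emb

/-- The numbers of components are invariant under isomorphisms. -/
def R_cnti : Prop := ∀ (V V' : Type) (G : SimpleGraph V) (G' : SimpleGraph V') (φ : G ≃g G') (u : V)
  (s : ℕ), cnt G u s = cnt G' (φ u) s

/-- [ND cnti] Proof. `φ` restricts to an isomorphism of the graphs without `u` and `φ u`, which gives a bijection of the components
(`SimpleGraph.Iso.connectedComponentEquiv`) with supports of the same size; `Nat.card_congr`. -/
def S_cnti : Prop := R_cnti

/-- The list of the components of a finite graph. -/
def R_cmp : Prop := ∀ (V : Type) [Finite V] (G : SimpleGraph V), ∃ L : List FG,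
  (∀ H ∈ L, H.2.Connected ∧ ∃ C : G.ConnectedComponent, Nonempty (H.2 ≃g G.induce C.supp)) ∧
  ∀ C : G.ConnectedComponent, ∃ H ∈ L, Nonempty (G.induce C.supp ≃g H.2)

/-- [ND cmp] Proof. `G` has finitely many components; a finite graph on a type `W` is isomorphic to a graph on `Fin (Nat.card W)`
(`Finite.equivFin`, `SimpleGraph.comap`/`map`, `SimpleGraph.Iso.comap`), and `G.induce C.supp` is connected
(`SimpleGraph.ConnectedComponent.connected_toSimpleGraph` or `C.maximal_connected_induce_supp`, or directly). -/
def S_cmp : Prop := R_cmp

/-- Every set of forbidden graphs with edges has a core. -/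
def R_core : Prop := ∀ FF : Set FG, FF.Nonempty → (∀ H ∈ FF, H.2 ≠ ⊥) →
  ∃ (J : FG) (c : Fin J.1) (L : List FG) (N : ℕ), Core FF J c L N

/-- [ND core] Proof. A list `L` of connected finite graphs is called bad if there is `F ∈ FF` such that every component of `F` embeds
(as an induced subgraph) into a member of `L`. Bad lists exist: `L` = the list of the components of some `F ∈ FF` (R_cmp).
For a connected graph `X` let `α X` be the least value of `P (cnt X u)` over the vertices `u` (`P`, `Ω` from R_ord; `Ω` is well
ordered; invariant under isomorphism because `cnt` is). Take a bad list `L₀` of connected graphs such that the multiset of the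
`α X`, `X ∈ L₀`, is minimal for the relation `Relation.CutExpand (· < ·)` on `Multiset Ω` (well-founded by
`WellFounded.cutExpand`). Let `F ∈ FF` be as in the definition of bad. `F` has an edge, so it has a component with two
vertices, which embeds into a member `J` of `L₀` with at least two vertices. Every member of `L₀` has at least two vertices:
a member `H` with one vertex can be left out, because a component that embeds into `H` has one vertex and embeds into `J`
(`CutExpand` with `t = 0`). Write `L₀ = J :: L` (permutation), let `c` be a vertex of `J` with `P (cnt J c) = α J`,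
`N = F.1` (`F` has a vertex).
good: let `G` be a finite graph whose components are isomorphic to members of `L` or are graphs `X` with a vertex `u` such
that `MLt (cnt X u) (cnt J c)`; then `α X ≤ P (cnt X u) < P (cnt J c) = α J`. Suppose that `F' ∈ FF` embeds into `G`. Every
component of `F'` is mapped into a component of `G`. Let `M` be the list of the components `X` of `G` of the second kind (as
graphs on `Fin n`). Then `M ++ L` is bad, and its multiset is obtained from that of `J :: L` by replacing `α J` by smaller
elements: contradiction to minimality.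
bad: R_emb for `F` and the list `J :: L`. -/
def S_core : Prop := R_ord → R_emb → R_cnti → R_cmp → R_core

/-- Labels of the components of `J - c`, label 0 for a largest component, `d` one of its vertices. -/
structure Lab (J : FG) (c d : Fin J.1) (l : Fin J.1 → ℕ) (s : ℕ) : Prop where
  adj : ∀ x y, J.2.Adj x y → x ≠ c → y ≠ c → l x = l y
  dne : d ≠ c
  dl : l d = 0
  pos : 1 ≤ s
  cls : ∀ m, {x | x ≠ c ∧ l x = m}.ncard ≤ s
  num : {m | m ≠ 0 ∧ {x | x ≠ c ∧ l x = m}.ncard = s}.ncard < cnt J.2 c s
  top : ∀ s', s < s' → cnt J.2 c s' = 0

/-- Labels exist. -/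
def R_lab : Prop := ∀ (J : FG) (c : Fin J.1), 2 ≤ J.1 → ∃ d l s, Lab J c d l s

/-- [ND lab] Proof. `J - c` has a vertex, so it has components; let `C₁` be one with the largest number `s ≥ 1` of vertices, `d` a
vertex of `C₁`. Number the components injectively by natural numbers with number 0 for `C₁` (finite type; swap an
equivalence with `Fin n`), `l x` = the number of the component of `x` for `x ≠ c`, `l c = 0`. Adjacent vertices are in the same
component. The class of `m` is the support of the component with number `m` (or empty), so it has at most `s` elements; `cnt J.2 c s`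
is the number of components with `s` elements; those of them other than `C₁` correspond to the `m ≠ 0` with class of size `s`
(`s ≥ 1`, so empty classes do not count). There are no components with more than `s` vertices. (Mind the translation between
`(J.2.induce {w | w ≠ c}).ConnectedComponent`, whose support is a set of the subtype, and sets of `Fin J.1`.) -/
def S_lab : Prop := R_lab

/-- Comparison of the numbers of components from labels. -/
def R_pro : Prop := ∀ (f : ℕ → ℕ) (s : ℕ), 1 ≤ s → (∀ s', s < s' → f s' = 0) →
  ∀ (V : Type) [Finite V] (K : SimpleGraph V) (u : V) (Λ : Type) (l : V → Λ),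
    (∀ w w', K.Adj w w' → w ≠ u → w' ≠ u → l w = l w') →
    (∀ m, {w | w ≠ u ∧ l w = m}.ncard ≤ s) →
    {m | {w | w ≠ u ∧ l w = m}.ncard = s}.ncard < f s → MLt (cnt K u) f

/-- [ND pro] Proof. The label is constant on every component of `K - u` (induction on walks / `ConnectedComponent.ind`,
`Reachable`), so every component is contained in a label class and has at most `s` vertices: `cnt K u s' = 0 = f s'` for
`s' > s`. A component with `s` vertices is equal to its label class, which therefore has exactly `s` elements; so different components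
with `s` vertices have different labels, and `cnt K u s ≤ #{m | class of m has s elements} < f s` (this set of labels is finite because the
classes are non-empty subsets of the finite type `V`). So `MLt` holds with the place `s`. -/
def S_pro : Prop := R_pro

/-! ### A2. The gadget graph -/

/-- The vertex of the gadget graph for the vertex `x` of `J` and the edge `(u, v)`. -/
def plJ {V : Type} (J : FG) (c d : Fin J.1) (C : ℕ → Bool) (u v : V) (x : ℕ) : GV V :=
  place u v (slotJ c d C x)

/-- The tables are those of `J`, `c`, `d`, `C`, `L`. -/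
noncomputable def gad {V : Type} [DecidableEq V] (J : FG) (c d : Fin J.1) (C : ℕ → Bool) (L : List FG)
    (B : List (V × V)) : List (GV V × GV V) := gadT (tabV J c d C) (tabE J c d C L) B

/-- Description of the edges of the gadget graph. -/
def R_gadj : Prop := ∀ (J : FG) (c d : Fin J.1) (C : ℕ → Bool) (L : List FG) (V : Type) [DecidableEq V]
  (B : List (V × V)) (p q : GV V), adjL (gad J c d C L B) p q ↔
    (∃ u ∈ ends B, ∃ x y : Fin J.1, J.2.Adj x y ∧ C x = false ∧ C y = false ∧
      p = plJ J c d C u u x ∧ q = plJ J c d C u u y) ∨
    (∃ e ∈ B, ∃ x y : Fin J.1, J.2.Adj x y ∧ (C x = true ∨ C y = true) ∧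
      p = plJ J c d C e.1 e.2 x ∧ q = plJ J c d C e.1 e.2 y) ∨
    (∃ e ∈ B, ∃ (i : Fin L.length) (x y : Fin (L.get i).1), (L.get i).2.Adj x y ∧
      p = (4 + (i : ℕ), (x : ℕ), e.1, e.2) ∧ q = (4 + (i : ℕ), (y : ℕ), e.1, e.2))

/-- [ND gadj] Proof. Unfold `adjL`, `gadT`, `tabV`, `tabE`, `edgesOf`: `(x, y) ∈ edgesOf H` iff `x < y < H.1` and adjacent; both orders
together give all pairs `x`, `y` with `Adj x y` (`lt_or_gt_of_ne`). `mem_ded` for the vertices. `place e.1 e.2 (4 + i, x) =
(4 + i, x, e.1, e.2)`. -/
def S_gadj : Prop := R_gadj

/-- The set of vertices of a label class. -/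
def CLab (J : FG) (c : Fin J.1) (l : Fin J.1 → ℕ) (C : ℕ → Bool) : Prop :=
  ∀ x : Fin J.1, C x = true ↔ x ≠ c ∧ l x = 0

/-- The shape of the vertices of the gadget graph. -/
def R_gshp : Prop := ∀ (J : FG) (c d : Fin J.1) (C : ℕ → Bool) (L : List FG) (V : Type) [DecidableEq V]
  (B : List (V × V)), C c = false → C d = true → ∀ p ∈ ends (gad J c d C L B),
    (∃ u ∈ ends B, p = (0, 0, u, u)) ∨
    (∃ e ∈ B, ∃ x : Fin J.1, C x = true ∧ x ≠ d ∧ p = (2, (x : ℕ), e.1, e.2)) ∨
    (∃ u ∈ ends B, ∃ x : Fin J.1, C x = false ∧ x ≠ c ∧ p = (3, (x : ℕ), u, u)) ∨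
    (∃ e ∈ B, ∃ (i : Fin L.length) (x : Fin (L.get i).1), p = (4 + (i : ℕ), (x : ℕ), e.1, e.2))

/-- [ND gshp] Proof. An end point has a neighbour (`p ∈ ends E ↔ ∃ q, adjL E p q`); R_gadj and the definition of `slotJ`, `place`. -/
def S_gshp : Prop := R_gadj → R_gshp

/-- The root of a vertex of the gadget graph, for a vertex cover `a`. -/
def root {V : Type} (a : V → Bool) (p : GV V) : V :=
  bif decide (p.1 = 2) && a p.2.2.1 then p.2.2.2 else p.2.2.1

/-- The label of a vertex of the gadget graph. -/
def labG {V : Type} (J : FG) (l : Fin J.1 → ℕ) (p : GV V) : ℕ ⊕ (V × V) :=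
  if p.1 = 2 then Sum.inr (p.2.2.1, p.2.2.2) else
    Sum.inl (if h : p.2.1 < J.1 then l ⟨p.2.1, h⟩ else 0)

/-- Adjacent vertices that are not deleted have the same root and the same label. -/
def R_gloc : Prop := ∀ (J : FG) (c : Fin J.1) (L : List FG) (d : Fin J.1) (l : Fin J.1 → ℕ) (s : ℕ)
  (C : ℕ → Bool), Lab J c d l s → CLab J c l C →
  ∀ (V : Type) [DecidableEq V] (B : List (V × V)) (a : V → Bool), Asym B → Cov B a →
    ∀ p q, adjL (gad J c d C L B) p q →
      (decide (p.1 = 0) && a p.2.2.1) = false → (decide (q.1 = 0) && a q.2.2.1) = false →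
      (4 ≤ p.1 → q.1 = p.1 ∧ q.2.2 = p.2.2) ∧
      (p.1 < 4 → q.1 < 4 ∧ root a p = root a q ∧ (p.1 ≠ 0 → q.1 ≠ 0 → labG J l p = labG J l q))

/-- [ND gloc] Proof. R_gadj. First alternative (`x`, `y` outside `C`): the places of `x`, `y` are `(0,0,u,u)` or `(3,x,u,u)`: same root `u`; if both tags are 3,
then `x`, `y` are different from `c` and have the same label (`Lab.adj`). Second alternative for `e = (u,v)`: `x` or `y` is in `C`, so both are in `C ∪ {c}` (`Lab.adj`, `CLab`):
the places are among `(0,0,u,u)` (for `c`), `(0,0,v,v)` (for `d`), `(2,x,u,v)`. If both have tag 2: root and label depend on `(u,v)` only. `(0,0,u,u)` and `(2,x,u,v)`: `a u = false`, root `u`.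
`(0,0,v,v)` and `(2,x,u,v)`: `a v = false`, so `a u = true` because `a` is a vertex cover, and the root of `(2,x,u,v)` is `v`. `(0,0,u,u)` and `(0,0,v,v)`: impossible, `a u` or `a v` is true. Third alternative: tags
`4 + i`. -/
def S_gloc : Prop := R_gadj → R_gloc

/-- The gadget graph has no loops. -/
def R_gloop : Prop := ∀ (J : FG) (c d : Fin J.1) (C : ℕ → Bool) (L : List FG) (V : Type) [DecidableEq V]
  (B : List (V × V)), C c = false → C d = true → Asym B → ∀ e ∈ gad J c d C L B, e.1 ≠ e.2

/-- [ND gloop] Proof. Edges of `J` have different ends `x ≠ y`. For the vertex gadget (`x`, `y` outside `C`): the places are `(0,0,u,u)` or `(3,x,u,u)`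
and are different. For the edge gadget: slots of `x ≠ y` are different, and the places of different slots are different because
`e.1 ≠ e.2` (`Asym`). For the graphs in `L`: the numbers are different. -/
def S_gloop : Prop := R_gloop

/-- Embeddings of `J` and the members of `L` into the gadget graph. -/
def R_gemb : Prop := ∀ (J : FG) (c : Fin J.1) (L : List FG) (d : Fin J.1) (l : Fin J.1 → ℕ) (s : ℕ)
  (C : ℕ → Bool), J.2.Connected → 2 ≤ J.1 → (∀ H ∈ L, H.2.Connected ∧ 2 ≤ H.1) → Lab J c d l s →
  CLab J c l C → ∀ (V : Type) [DecidableEq V] (B : List (V × V)), Asym B → ∀ e ∈ B,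
    (∀ x y : Fin J.1, (plJ J c d C e.1 e.2 x = plJ J c d C e.1 e.2 y → x = y) ∧
      plJ J c d C e.1 e.2 x ∈ ends (gad J c d C L B) ∧
      (J.2.Adj x y ↔ adjL (gad J c d C L B) (plJ J c d C e.1 e.2 x) (plJ J c d C e.1 e.2 y))) ∧
    (∀ (i : Fin L.length) (x y : Fin (L.get i).1),
      ((4 + (i : ℕ), (x : ℕ), e.1, e.2) : GV V) ∈ ends (gad J c d C L B) ∧
      ((L.get i).2.Adj x y ↔ adjL (gad J c d C L B) (4 + (i : ℕ), (x : ℕ), e.1, e.2)
        (4 + (i : ℕ), (y : ℕ), e.1, e.2)))

/-- [ND gemb] Proof. `Asym B` gives `e.1 ≠ e.2`; the slots of different vertices of `J` have different places. `J` is connected with two vertices, so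
every `x` has a neighbour `y` (`Connected` + `Nontrivial`), and by R_gadj the places of `x` and `y` are adjacent (if both are outside `C` the
first alternative with `u = e.1`: `plJ e.1 e.2 x = plJ e.1 e.1 x` for `x` outside `C`, since `d ∈ C`; otherwise the second), so they are
end points. Conversely let the places of `x`, `y` be adjacent by R_gadj. First alternative (`u`, `x'`, `y'` outside `C`): the places
are `(0,0,u,u)` (if `x' = c`) or `(3,x',u,u)`; compare tags: `x = x'` and `y = y'` except that `(0,0,u,u)` could be the place of `d`,
if `u = e.2`; then the other end `(3,y',u,u)` is not a place of the edge `e` unless `e.1 = u` - impossible - and both ends cannot be `(0,0,u,u)`.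
Second alternative with `e'`: if one of the places has tag 2, then `e' = e` and one compares (tags and numbers determine the vertex of `J` for fixed
`e`, because `e.1 ≠ e.2`); if both have tag 0, they are `(0,0,e'.1,e'.1)` and `(0,0,e'.2,e'.2)` (slots `c` and `d`), so `{e'.1, e'.2} = {e.1, e.2}` and by
`Asym` `e' = e`. An edge that meets `C` has both ends in `C ∪ {c}` (`Lab.adj`, `CLab`), so there is no tag 3 in the second alternative. Third
alternative: tags ≥ 4, impossible. For `L`: only the third alternative gives tags ≥ 4, and `4 + i`, `x`, `e.1`, `e.2` can be read off. -/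
def S_gemb : Prop := R_gadj → R_gemb

/-- A vertex cover of the base graph gives a solution. -/
def R_gyes : Prop := ∀ (FF : Set FG) (J : FG) (c : Fin J.1) (L : List FG) (N : ℕ) (d : Fin J.1)
  (l : Fin J.1 → ℕ) (s : ℕ) (C : ℕ → Bool), Core FF J c L N → Lab J c d l s → CLab J c l C →
  ∀ (V : Type) [DecidableEq V] (B : List (V × V)) (a : V → Bool), Asym B → Cov B a →
    Sol FF (gad J c d C L B) (fun p => decide (p.1 = 0) && a p.2.2.1)

/-- [ND gyes] Proof. Let `E = gad ..`, `a'` the set in the statement; it consists of the vertices `(0,0,u,u)` with `a u = true`. Let `T` be the finite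
type `{p // p ∈ ends E ∧ a' p = false}`, `G` the graph on `T` with adjacency `adjL E` (no loops by R_gloop or from `Asym`; or define it with `≠`).
If `H ∈ FF` and `Has E a' H`, then `H` embeds into `G`, so by `Core.good` it suffices to show that every component `X` of `G` is isomorphic to a member of `L` or has a vertex `u` with
`MLt (cnt X u) (cnt J.2 c)`. By R_gshp a vertex of `T` has one of four shapes. If `X` contains a vertex `(4+i,x,u,v)`, then `X` consists of all `(4+i,y,u,v)`, `y : Fin (L.get i).1`: by R_gloc the tag and `(u,v)` are constant on `X`,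
and the map `y ↦ (4+i,y,u,v)` is an isomorphism of `L.get i` onto an induced subgraph (R_gemb), which is connected; so `X` is isomorphic to `L.get i`. Otherwise all tags in `X` are less than 4 (R_gloc) and the root is
constant on `X`, equal to `r` say. Case 1: `(0,0,r,r) ∈ X`. Apply R_pro with `f = cnt J.2 c`, `u = (0,0,r,r)` and the labels `labG J l`: the vertices of `X` of tag 0 have root `r`, so `(0,0,r,r)` is the only one; the
others have tags 2, 3 and adjacent ones have the same label (R_gloc). The class of `inl m` consists of vertices `(3,x,r,r)` (shape and root) and injects into `{x | x ≠ c ∧ l x = m}`, and `x ∉ C`, so it is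
empty for `m = 0` and has at most `s` elements otherwise; the class of `inr (u,v)` injects into `C \ {d}`, so it has at most `s - 1` elements (`Lab.cls 0`). Hence the labels with class of size `s ≥ 1` are some of the `inl m` with `m ≠ 0` and
`{x | x ≠ c ∧ l x = m}.ncard = s`, and their number is `< cnt J.2 c s` (`Lab.num`; the set in `Lab.num` is finite because `l` has finitely many values and `s ≥ 1`). Case 2: `(0,0,r,r) ∉ X`: then `X` has no vertex of
tag 0, so the label is constant on `X`, and `X` has at most `s` vertices by the same count; take any vertex `u` of `X` and apply R_pro with the constant label in `Unit`: the class has at most `s - 1` elements, and `cnt J.2 c s ≥ 1` by `Lab.num`. -/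
def S_gyes : Prop := R_gshp → R_gloc → R_gemb → R_gloop → R_pro → R_gyes

/-- The number of vertices of this solution. -/
def R_gysz : Prop := ∀ (J : FG) (c d : Fin J.1) (C : ℕ → Bool) (L : List FG) (V : Type) [DecidableEq V]
  (B : List (V × V)) (a : V → Bool),
    dsz (gad J c d C L B) (fun p => decide (p.1 = 0) && a p.2.2.1) ≤ dsz B a

/-- [ND gysz] Proof. By the definition of `place` every end point `p` of an edge of the gadget graph with `p.1 = 0` is `(0,0,u,u)` with `u ∈ ends B`
(for tables with arbitrary slots; the vertices of `ded (ends B)` are in `ends B`). So `p ↦ p.2.2.1` is injective on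
the set counted on the left and maps it into the set counted on the right (`Finset.card_le_card_of_injOn`). -/
def S_gysz : Prop := R_gysz

/-- Solutions of the gadget graph of `K` copies give vertex covers. -/
def R_gno : Prop := ∀ (FF : Set FG) (J : FG) (c : Fin J.1) (L : List FG) (N : ℕ) (d : Fin J.1)
  (l : Fin J.1 → ℕ) (s : ℕ) (C : ℕ → Bool), Core FF J c L N → Lab J c d l s → CLab J c l C →
  ∀ (V : Type) [DecidableEq V] (B : List (V × V)) (K : ℕ) (a' : GV (ℕ × V) → Bool), Asym B →
    Sol FF (gad J c d C L (cop K B)) a' →
    ∃ a : V → Bool, Cov B a ∧ (K + 1 - N) * dsz B a ≤ dsz (gad J c d C L (cop K B)) a'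

/-- [ND gno] Proof. `cop K B` is again `Asym`. Let `E` be the gadget graph. Call `κ < K` open if there is `e ∈ B` such that none of the vertices
`plJ (κ,e.1) (κ,e.2) x` (`x : Fin J.1`) and `(4+i, x, (κ,e.1), (κ,e.2))` is in `a'`. Claim: fewer than `N` of the `κ` are open.
Otherwise choose `N` different open `κ_1, ..., κ_N` (an injection from `Fin N`) with edges `e_n`, and apply `Core.bad` with the graph
`G` on `{p // p ∈ ends E ∧ a' p = false}` with adjacency `adjL E` and the embeddings of R_gemb for the edge `((κ_n,e_n.1),(κ_n,e_n.2))`: for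
index `(n, 0)` the graph `J`, for `(n, i+1)` the graph `L.get i`. `Indep`: places of different `κ` are different and not adjacent (every
vertex `p` of the gadget graph has a copy number `p.2.2.1.1 = p.2.2.2.1`, and adjacent vertices have the same copy number, R_gadj);
for the same `n` and different `i`: the tags are `≤ 3` for `J` and `4 + i` for `L.get i`, and R_gadj joins only equal tags `≥ 4`. So some
`H ∈ FF` embeds into `G`, contradicting `Sol` (`Has E a' H`). Hence at least `K + 1 - N` of the `κ < K` are not open. For such `κ` let
`a_κ u` be true iff some `p ∈ ends E` with `a' p = true` has `p.2.2.1 = (κ, u)`. It is a vertex cover of `B`: for `e ∈ B` there is a vertex in `a'` of the form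
`plJ (κ,e.1) (κ,e.2) x` or `(4+i,x,(κ,e.1),(κ,e.2))`; its component `p.2.2.1` is `(κ,e.1)` or (if `x = d`) `(κ,e.2)` (it is in `ends E` by R_gemb).
`dsz B a_κ ≤ #{p ∈ ends E | a' p = true, p.2.2.1.1 = κ}` (choose `p` for every `u`), and the sum of the right sides over all `κ` is
at most `dsz E a'`. Take the `κ` (not open) with the smallest `dsz B a_κ`. If `K + 1 - N = 0` take `a = true` everywhere. -/
def S_gno : Prop := R_gadj → R_gemb → R_gno

/-- Degrees and number of vertices of the gadget graph. -/
def R_gdeg : Prop := ∀ (tv te : List (Slt × Slt)), ∃ D₁ : ℕ, ∀ (V : Type) [DecidableEq V] (B : List (V × V))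
  (K Δ : ℕ), (∀ v, (ends B).count v ≤ Δ) →
    (∀ p, (ends (gadT tv te (cop K B))).count p ≤ D₁ * (Δ + 1)) ∧
    nv (gadT tv te (cop K B)) ≤ D₁ * (K * B.length)

/-- [ND gdeg] Proof. `D₁ = 4 * tv.length + 2 * te.length`. `nv` is at most the number of end points in the list, which is twice the number of edges;
`(ded l).length ≤ l.length` (`ded_length`, `List.toFinset_card_le`), `(ends (cop K B)).length = 2 K B.length`. Count of `p` in the first part: an end point
`place u u s` equal to `p` forces `u = p.2.2.1` (third component), and `ded` has no repetition, so at most `2 * tv.length`. Second part: an end point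
`place e.1 e.2 s` equal to `p` forces `e.1 = p.2.2.1` or `e.2 = p.2.2.1`, so only the edges of `cop K B` with end point
`p.2.2.1` contribute, each at most `2 * te.length`; the number of edges with an end point `(κ, v)` is at most `(ends (cop K B)).count (κ, v)
≤ (ends B).count v ≤ Δ`. -/
def S_gdeg : Prop := R_gdeg

/-! ### A3. Lists of edges -/

/-- Normalisation of a list of edges. -/
def R_nrm : Prop := ∀ (T : Type) [DecidableEq T] (E : List (T × T)),
  Simple (nrm E) ∧ (∀ v, (ends (nrm E)).count v ≤ (ends E).count v) ∧
  ((∀ e ∈ E, e.1 ≠ e.2) → (∀ (FF : Set FG) (a : T → Bool), Sol FF (nrm E) a ↔ Sol FF E a) ∧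
    (∀ a : T → Bool, dsz (nrm E) a = dsz E a) ∧ nv (nrm E) = nv E)

/-- [ND nrm] Proof. Induction on `E` for the first two statements (`nrm` is a sublist of `E`). If `E` has no loops, `adjL (nrm E) = adjL E` (induction),
hence the same end points (`v ∈ ends E ↔ ∃ w, adjL E v w`) and `Has (nrm E) a H ↔ Has E a H`. -/
def S_nrm : Prop := R_nrm

/-- Renaming of the vertices. -/
def R_map : Prop := ∀ (T T' : Type) [DecidableEq T] [DecidableEq T'] (f : T → T'), Injective f →
  ∀ E : List (T × T), (Simple E → Simple (E.map (fun e => (f e.1, f e.2)))) ∧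
    (∀ D : ℕ, (∀ v, (ends E).count v ≤ D) →
      ∀ v, (ends (E.map (fun e => (f e.1, f e.2)))).count v ≤ D) ∧
    nv (E.map (fun e => (f e.1, f e.2))) = nv E ∧
    (∀ (FF : Set FG) (a : T' → Bool),
      Sol FF (E.map (fun e => (f e.1, f e.2))) a ↔ Sol FF E (fun v => a (f v))) ∧
    (∀ a : T' → Bool, dsz (E.map (fun e => (f e.1, f e.2))) a = dsz E (fun v => a (f v))) ∧
    (∀ a : T → Bool, ∃ a' : T' → Bool, (fun v => a' (f v)) = a)

/-- [ND map] Proof. `ends (E.map ..) = (ends E).map f`; `List.count_map_of_injective`, `Finset.card_image_of_injective`; an injection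
`g : Fin n → T'` with values in the ends factors through `f`. -/
def S_map : Prop := R_map

/-! ### A4. The conflict graph -/

/-- Properties of the conflict graph. -/
def R_conf : Prop := ∀ (W : Type) [DecidableEq W] (G : List (List (Lit W))),
  Asym (confE G) ∧
  ((∀ c ∈ G, c.length ≤ 3) → (∀ w, (vlist G).count w ≤ 3) →
    (∀ v, (ends (confE G)).count v ≤ 12) ∧ (confE G).length ≤ 36 * G.length)

/-- [ND conf] Proof. `bfr` is irreflexive and asymmetric, and the literal of a place is determined by the place (`lits G` has different places:
`(lits G).map Prod.fst` has no duplicates, from `zipIdx`), so (u,v) and (v,u) are not both edges. Count: the pairs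
`(p, q)` with first place `v`: `p` is the unique element of `lits G` at `v`, and the `q` in conflict are in the same clause (at most 3, the
clause has length at most 3) or have the same variable (at most 3 by the count in `vlist G`; `(lits G).map (fun q => q.2.2) = vlist G`), in total at most 6.
The pairs with second place `v`: the same, at most 6. Length: `(lits G).length ≤ 3 * G.length` and every `p` has at most 12 conflicts. -/
def S_conf : Prop := R_conf

/-- Vertex covers and assignments. -/
def R_vc : Prop := ∀ (W : Type) [DecidableEq W] (G : List (List (Lit W))),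
  ((∃ a : W → Bool, ∀ c ∈ G, ∃ l ∈ c, a l.2 = l.1) →
    ∃ a' : ℕ × ℕ → Bool, Cov (confE G) a' ∧ dsz (confE G) a' + G.length ≤ nlit G) ∧
  (∀ a' : ℕ × ℕ → Bool, Cov (confE G) a' →
    ∃ α : W → Bool, nlit G + G.countP (falsB α) ≤ dsz (confE G) a' + G.length)

/-- [ND vc] Proof. The set `A` of the places of `lits G` has `nlit G` elements (`(lits G).map Prod.fst` has no duplicates, length `nlit G`), and
`ends (confE G) ⊆ A`. First part: for every clause number `i` let `j i` be the number of the first literal made true by `a`; `a'` is true on
all places `(i, j)` with `j ≠ j i`. Two places outside `a'` are in different clauses and have true literals, so they are not in conflict: `a'` is a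
vertex cover. Its elements in `A` are `nlit G - G.length`. Second part: let `I` be the set of the places in `A` that are not (ends of edges
with `a' = true`); `#I = nlit G - dsz (confE G) a'`. Two different places in `I` are not in conflict (an edge between them would be covered, by an
end point), so `I` has at most one place in each clause and no two opposite literals; let `α w` be true iff some place in `I` has the literal
`(true, w)`. The clauses that contain a place of `I` are satisfied by `α`, so `countP (falsB α) ≤ G.length - #I` (injection from `I` to the clause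
numbers that are not falsified). -/
def S_vc : Prop := R_vc

/-- Names. -/
def R_nmG : Prop := Injective nmG ∧ ∀ p, Nat.bits (nmG p) = wdG p

/-- [ND nmG] Proof. `wdL l` ends with `true` for `l ≠ []` (`bits_unbits`); `wdL` is injective (induction, `List.replicate` against `true`), `numsG` is
injective, `unbits` is injective on words ending with `true` by `bits_unbits`. -/
def S_nmG : Prop := R_nmG

/-- The reduction is computable in polynomial time. -/
def R_ptA : Prop := ∀ (tv te : List (Slt × Slt)) (K : ℕ), PTime (fun x : List Bool =>
  encW ([List.replicate (K * (nlit (parse x) - (parse x).length)) true] ::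
    (redD tv te K (parse x)).map (fun e => [wdG e.1, wdG e.2])))

/-- [ND ptA] Proof. Closure properties of `PTime` (`Lib/PolyTime/Typed.lean`, `Eq.lean`; examples in `CutRed.lean`: `nmC_ptime`, `cutF_ptime`;
`parse_ptime`, `encW_ptime`, `ded_ptime`). `nrm` is a `foldr` with growth at most one element (`PTime.foldr` with a polynomial bound, compare `ded_ptime`);
`place` is a `cond`; `wdL` is a `flatMap` of `replicate`. -/
def S_ptA : Prop := R_ptA

/-- Q1 implies that the deletion problems are hard. -/
def R_hard : Prop := ∀ FF : Set FG, FF.Nonempty → (∀ H ∈ FF, H.2 ≠ ⊥) → GapETH →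
  ∃ D : ℕ, ∃ ε : ℚ, 0 < ε ∧ ∃ b : ℕ, 0 < b ∧ ¬ GSep enCut (VDel D) (YDel FF) (NDel FF ε) nvCut b

/-- [ND hard] (assembly; compare `cut_fwd` in `CutMain.lean`) Proof. `sparse_of`: `p`, `q`, `b` without separator for `V3`, `Y3`, `N3 (p/q)`. `J`, `c`, `L`, `N` from R_core, `d`, `l`, `s` from R_lab,
`C x` = true iff `x = y : Fin J.1` with `y ≠ c`, `l y = 0`; `tv = tabV ..`, `te = tabE ..`, `D₁` from R_gdeg, `K = 8 * q * N`, `ε = p / (8 q)`, `D = D₁ * 13`, `b' = D₁ * K * 36 * b` (enlarge `D₁` to be positive). `transfer` with the function of
R_ptA and `h x = mydiv (parse x).length b`. For a valid `F`, with `G = binF F = parse (encF F)`, `B = confE G`, `m = F.length`: the instance is `(K * (nlit G - m), E')`, `E' = (redD tv te K G).map (fun e => (nmG e.1, nmG e.2))`; its code is that of R_ptA by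
R_nmG. Valid and small: R_conf (occurrences of variables in `binF F`: `countP_binF` as in `CutDeg.lean`), R_gdeg, R_nrm, R_map. Yes: R_vc gives a vertex cover `a` of `B` with `dsz B a ≤ nlit G - m`; `fun p => a p.2` is a vertex cover of `cop K B`
(which is `Asym`) with at most `K * dsz B a` vertices; R_gyes, R_gysz, R_gloop, R_nrm, R_map. No: let `a'` be a solution of `E'`; by R_map, R_nrm it is a solution of the gadget graph, by R_gno there is a vertex cover `a` of `B` with
`(K + 1 - N) * dsz B a ≤ dsz E' a'`, by R_vc an assignment with `nlit G + f ≤ dsz B a + m`, `f` = number of falsified clauses, `q f ≥ p m`. With `x = nlit G - m ≤ 2 m` (no empty clause, `nlit G ≤ 3 m`): `8 q dsz E' a' ≥ K (8 q - 1) (x + f)`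
(since `K + 1 - N ≥ K - N` and `8 q (K - N) = K (8 q - 1)`), and `(8 q + p) x < (8 q - 1) (x + f)` because `(8 q - 1) f ≥ 7 q f ≥ 7 p m > 4 p m ≥ (p + 1) x`. So `(1 + ε) K x < dsz E' a'`. -/
def S_hard : Prop := R_core → R_lab → R_gyes → R_gysz → R_gno → R_gdeg → R_gloop → R_nrm → R_map → R_conf → R_vc →
  R_nmG → R_ptA → R_hard

/-! ### A5. Separators from search machines -/

/-- A search machine gives a separator. -/
def R_sepf : Prop := ∀ (FF : Set FG) (D p q b : ℕ), 0 < q → 0 < b →
  GFind enG (VDg D) (goodDel FF ((p : ℚ) / (q : ℕ))) nvG b →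
  GSep enCut (VDel D) (YDel FF) (NDel FF ((p : ℚ) / (q : ℕ))) nvCut b

/-- [ND sepf] Proof. As `sep_of_find_cut` in `CutFind.lean`: `sep_of_find`, `find_transfer` with `f x = encW (parseW x).tail`,
`out (x, w) = [decide (q * (number of different selected vertices) ≤ (q + p) * thI x)]`, where the number of selected vertices is the length of
`ded` of the words of the end points (of `(parseW x).tail.flatten`) with bit `true` in `w` (`PTime` with `zipIdx`, `getD`, `filter`, `map`, `ded`); for `w =
E.flatMap (fun e => [a e.1, a e.2])` it is `dsz E a` (`bits_injective`). If some solution has at most `t` vertices, then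
`dsz E a ≤ (1 + p/q) t`, answer `true`; if all solutions have more than `(1 + p/q) t` vertices, so has `a`, answer `false`. -/
def S_sepf : Prop := R_sepf

/-! ## B. Search machines if Q1 fails -/

/-! ### B1. Copies -/

/-- Description of the copies. -/
def R_copy : Prop := ∀ (T : Type) [DecidableEq T] [Inhabited T] (H : FG) (E : List (T × T)) (t : List T),
  t ∈ copies H E ↔ ∃ f : Fin H.1 → T, Injective f ∧ (∀ i, f i ∈ ends E) ∧
    (∀ i j, H.2.Adj i j ↔ ((f i, f j) ∈ E ∨ (f j, f i) ∈ E)) ∧ t = List.ofFn f

/-- [ND copy] Proof. `t ∈ tup l k ↔ t.length = k ∧ ∀ x ∈ t, x ∈ l` by induction on `k`. For a list `t` of length `H.1` put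
`f i = t.getD i default`; `isCopy` says that `f` is injective and that adjacency is the same (all pairs `(i, j)`, also `i = j`). -/
def S_copy : Prop := R_copy

/-- A set of vertices is a solution if and only if it meets all copies. -/
def R_hit : Prop := ∀ (T : Type) [DecidableEq T] [Inhabited T] (G : List FG) (E : List (T × T)) (a : T → Bool),
  Sol {H | H ∈ G} E a ↔ ∀ t ∈ cps G E, ∃ w ∈ t, a w = true

/-- [ND hit] Proof. R_copy: the copies `t = List.ofFn f` with `a (f i) = false` for all `i` are the witnesses of `Has`. -/
def S_hit : Prop := R_copy → R_hit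

/-- A bound for the number of copies of a connected graph that contain a given vertex. -/
def R_bnd : Prop := ∀ (D : ℕ) (H : FG), H.2.Connected → ∀ (T : Type) [DecidableEq T] [Inhabited T]
  (E : List (T × T)), (∀ v, (ends E).count v ≤ D) → ∀ v,
    ((copies H E).filter (fun t => decide (v ∈ t))).length ≤ ((D + 1) ^ H.1) ^ H.1

/-- [ND bnd] Proof. The neighbours of a vertex `v` (`adjL E v w`) are at most `D` (they occur in the edges with end point `v`). Let
`B r` be the finite set of the vertices reachable from `v` in at most `r` steps, `#B r ≤ (D + 1)^r` (induction: `B (r+1)` is contained in the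
union over `w ∈ B r` of `w` and its neighbours). If `t = List.ofFn f` is a copy with `f i = v`, then every `f j` is in `B H.1`: `H` is connected, there is
a path from `i` to `j` of length less than `H.1` in `H` (`SimpleGraph.Walk.IsPath.length_lt`), mapped to a walk in `E`. So the copies containing `v` are lists
of length `H.1` with elements in `B H.1`; `copies H E` has no duplicates (`tup` of a list without duplicates has none), so their number is at
most `(#B H.1)^H.1` (for instance `Finset.card_le_card_of_injOn` into `Fin H.1 → B H.1`, or `List.Nodup` with `tup (B H.1).toList H.1`). -/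
def S_bnd : Prop := R_copy → R_bnd

/-- Bounds for the number of constraints. -/
def R_clen : Prop := ∀ (D : ℕ) (G : List FG), (∀ H ∈ G, H.2.Connected) → ∃ C₀ : ℕ,
  ∀ (T : Type) [DecidableEq T] [Inhabited T] (E : List (T × T)), (∀ v, (ends E).count v ≤ D) →
    (cons G E).length ≤ C₀ * nv E ∧
    ∀ a : T → Bool, Sol {H | H ∈ G} E a → (cons G E).length ≤ C₀ * dsz E a

/-- [ND clen] Proof. Let `c = Σ_{H ∈ G} ((D+1)^H.1)^H.1`, `M = Σ_{H ∈ G} H.1`: every vertex is in at most `c` members (with multiplicity) of `cps G E`, every
copy has at least 1 (connected graphs are non-empty) and at most `M` vertices, all of them in `ends E`. `W = ded (cps G E).flatten` has no duplicates.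
(i) Counting pairs (vertex of `W`, copy containing it): `(cps G E).length ≤ c * W.length`, and `W.length ≤ nv E`, so `(cons G E).length ≤ (1 + c) nv E`.
(ii) If `a` is a solution, every copy contains a vertex `v ∈ ends E` with `a v = true` (R_hit): `(cps G E).length ≤ c * dsz E a`,
and `W.length ≤ M * (cps G E).length`: `(cons G E).length ≤ (M + 1) c * dsz E a`. `C₀ = (1 + c) + (M + 1) c`. General lemma: if every element of a list
`L` of lists satisfies `∃ v ∈ S, v ∈ t` (`S` a finset) and every `v ∈ S` is in at most `c` elements of `L`, then `L.length ≤ c * #S` (induction on `S` or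
a double sum of `countP`). -/
def S_clen : Prop := R_hit → R_bnd → R_clen

/-- Values of the places and solutions. -/
def R_csol : Prop := ∀ (T : Type) [DecidableEq T] [Inhabited T] (G : List FG), (∀ H ∈ G, 1 ≤ H.1) →
  ∀ E : List (T × T),
    (∀ b : T → Bool, Sol {H | H ∈ G} E (fun v => decide (v ∈ fst0 (cons G E) b)) ∧
      (fst0 (cons G E) b).length = (cons G E).countP (fun r => vio r.1 (r.2.map b))) ∧
    (∀ a : T → Bool, Sol {H | H ∈ G} E a →
      (cons G E).countP (fun r => vio r.1 (r.2.map (fun w => !(a w)))) ≤ dsz E a)

/-- [ND csol] Proof. Second half of the first statement: `List.countP_eq_length_filter`. First half, by R_hit: let `t` be a copy. If `b w = true` for all `w ∈ t`, the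
constraint `(t.length, t)` is violated (`t.length ≠ 0` by R_copy) and its first vertex is in `t` and in `fst0`. Otherwise
`b w = false` for some `w ∈ t`; the constraint `(0, [w])` is violated, so `w ∈ fst0`. Second statement: no constraint `(t.length, t)` is violated
for `b = !a` (R_hit: some `w ∈ t` has `a w = true`), and `(0, [w])` is violated iff `a w = true`; the `w` are different (`nodup_ded`) and in `ends E` (R_copy). -/
def S_csol : Prop := R_copy → R_hit → R_csol

/-- The form of the constraints. -/
def R_cwf : Prop := ∀ (T : Type) [DecidableEq T] [Inhabited T] (G : List FG) (M : ℕ),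
  (∀ H ∈ G, 1 ≤ H.1 ∧ H.1 ≤ M) → ∀ (E : List (T × T)), ∀ r ∈ cons G E,
    (r.1 = 0 ∧ r.2.length = 1) ∨ (r.1 = r.2.length ∧ 1 ≤ r.1 ∧ r.1 ≤ M)

/-- [ND cwf] Proof. R_copy: copies of `H` have length `H.1`. -/
def S_cwf : Prop := R_copy → R_cwf

/-! ### B2. Near-optimal assignments -/

/-- A near-optimal assignment gives a near-optimal solution. `E` a graph in words. -/
def R_near : Prop := ∀ (Φ : List (List FG)) (C₀ p q : ℕ) (E : List (Wd × Wd)), Φ ≠ [] → 0 < q →
  (∀ G ∈ Φ, ∀ H ∈ G, 1 ≤ H.1) →
  (∀ G ∈ Φ, ∀ a, Sol {H | H ∈ G} E a → (cons G E).length ≤ C₀ * dsz E a) →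
  ∀ β : ℕ → Wd → Bool,
    (∀ β' : ℕ → Wd → Bool,
      q * (insW Φ C₀ E).countP (fun r => vio r.2.1 (r.2.2.map (β r.1))) ≤
        q * (insW Φ C₀ E).countP (fun r => vio r.2.1 (r.2.2.map (β' r.1))) +
          p * (insW Φ C₀ E).length) →
    ∀ S : List Wd, S = outS Φ C₀ E ((insW Φ C₀ E).flatMap (fun r => r.2.2.map (β r.1))) →
      (∃ G ∈ Φ, Sol {H | H ∈ G} E (fun v => decide (v ∈ S))) ∧
      ∀ G' ∈ Φ, ∀ a' : Wd → Bool, Sol {H | H ∈ G'} E a' →
        q * dsz E (fun v => decide (v ∈ S)) ≤
          q * dsz E a' + p * (Φ.length * C₀ ^ 2) * dsz E a'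

/-- [ND near] Proof. Let `G_j` (`j < Φ.length`) be the families, `K_j = cons G_j E`, `μ_j(b) = K_j.countP (vio .. b)`, `τ_j` the least value of `dsz E a` over the
solutions `a` of `G_j` (there are solutions, R_csol), `a_j` a solution with `dsz E a_j = τ_j`, and `j*` an index with the least `τ_j`. By R_csol `τ_j ≤
μ_j(b) ≤ K_j.length` for all `b` (`dsz E (· ∈ l) ≤ l.length`), and `μ_j(!a_j) ≤ τ_j`. So `K_{j*}.length ≤ C₀ τ_{j*} ≤ C₀ τ_j ≤ C₀ K_j.length` for all `j`: `j*` is a candidate (member of
`candL`). For every candidate `j`: `K_j.length ≤ C₀ K_{j*}.length ≤ C₀^2 τ_{j*}`; so `(insW ..).length ≤ Φ.length C₀^2 τ_{j*}`. `insW` is the concatenation of the `K_j` over the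
candidates, so the count of violated constraints for `β` is `Σ_j μ_j(β j)`. The assumption with `β' j = !a_j` gives
`q Σ μ_j(β j) ≤ q Σ τ_j + p (insW ..).length` (sums over the candidates); since `μ_j(β j) ≥ τ_j` for all candidates, `q μ_{j*}(β j*) ≤ q τ_{j*} + p Φ.length C₀^2 τ_{j*}`.
Alignment: for a candidate `(j, K_j)`: `fstZ j (disV ins bs) = fst0 K_j (β j)` where `ins = insW Φ C₀ E`, `bs = ins.flatMap (fun r => r.2.2.map (β r.1))`: `disV ins bs = ins.map
(fun r => (r, r.2.2.map (β r.1)))` (induction, `List.take_left'`), and the filter by the index keeps exactly the constraints of `K_j` (the indices in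
`allC` are different). `pick l₀ L` is `l₀` or a member of `L` and at most as long as all of them. So `S` is `ded (ends E)` - then it is a solution of any
family, because the members have a vertex - or `ded (fst0 K_j (β j))` for a candidate `j`, a solution of `G_j` (R_csol; `mem_ded`); and
`dsz E (· ∈ S) ≤ S.length ≤ (ded (fst0 K_{j*} (β j*))).length ≤ μ_{j*}(β j*)`. Finally `τ_{j*} ≤ τ_{j'} ≤ dsz E a'`. -/
def S_near : Prop := R_csol → R_near

/-- The instance of the payoff language. -/
def R_inst : Prop := ∀ (Φ : List (List FG)) (M C₀ : ℕ) (E : List (Wd × Wd)),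
  (∀ G ∈ Φ, ∀ H ∈ G, 1 ≤ H.1 ∧ H.1 ≤ M) →
  ∃ F : List (Con (arD M)), F.map wordC = (insW Φ C₀ E).map (conW M) ∧
    F.length = (insW Φ C₀ E).length ∧
    (∀ a : ℕ → Fin 2, F.flatMap (fun c => (List.ofFn c.2).map (fun v => decide (a v = 1))) =
      (insW Φ C₀ E).flatMap (fun r => r.2.2.map (fun w => decide (a (unbits (nb w r.1)) = 1)))) ∧
    (∀ a : ℕ → Fin 2, valC (phiD M) a F +
      (insW Φ C₀ E).countP (fun r => vio r.2.1 (r.2.2.map
        (fun w => decide (a (unbits (nb w r.1)) = 1)))) = (insW Φ C₀ E).length) ∧
    (∀ β : ℕ → Wd → Bool, ∃ a : ℕ → Fin 2, ∀ j w,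
      decide (a (unbits (nb w j)) = 1) = β j w)

/-- [ND inst] Proof. Every `r ∈ insW Φ C₀ E` has `r.2 ∈ cons G E` for some `G ∈ Φ`, so by R_cwf `r.2.1 ≤ M` and `r.2.2.length = arD M r.2.1`. Let the constraint
of `r` be `⟨r.2.1, fun j => unbits (nb (r.2.2.getD j []) r.1)⟩` (arbitrary otherwise). Then `List.ofFn` of its variables is
`r.2.2.map (fun w => unbits (nb w r.1))`, `Nat.bits (unbits (nb w j)) = nb w j` (`nb_end`, `bits_unbits`), and `phiD` is 1 minus the indicator of `vio` (`List.map_ofFn`). `F` is the image of `insW` (use
`List.attach`/`pmap` or a total function on all `r`). The last statement: `(j, w) ↦ unbits (nb w j)` is injective (`nb_inj`, `bits_unbits`). -/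
def S_inst : Prop := R_cwf → R_inst

/-- Reading the values of the places. -/
def R_conv : Prop := ∀ (g : ℕ) (ar : Fin g → ℕ) (F : List (Con ar)) (a : ℕ → Fin 2),
  convV (outW F a) = F.flatMap (fun c => (List.ofFn c.2).map (fun v => decide (a v = 1))) ∧
  (outW F a).length ≤ 2 * (F.flatMap (fun c => List.ofFn c.2)).length

/-- [ND conv] Proof. `convV_token` in `CutFind.lean`, induction (compare `convV_outW`, `outW_length`). -/
def S_conv : Prop := R_conv

/-! ### B3. Polynomial time -/

/-- The copies and constraints are computable in polynomial time. -/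
def R_ptC : Prop := (∀ H : FG, PTime (fun E : List (Wd × Wd) => copies H E)) ∧
  (∀ G : List FG, PTime (fun E : List (Wd × Wd) => cps G E)) ∧
  (∀ G : List FG, PTime (fun E : List (Wd × Wd) => cons G E)) ∧
  (∀ k : ℕ, PTime (fun l : List Wd => tup l k))

/-- [ND ptC] Proof. `tup l k` by induction on `k` (`PTime.flatMap`, `PTime.map`, `PTime.cons`). `isCopy (patH H) E t`: `PTime.all` over the constant list
`patH H` with `PTime.getD`, `PTime.eq`, `PTime.mem`. `cps G` by induction on the constant list `G`. -/
def S_ptC : Prop := R_ptC

/-- The instance is computable in polynomial time. -/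
def R_ptI : Prop := ∀ (Φ : List (List FG)) (C₀ M : ℕ),
  PTime (fun E : List (Wd × Wd) => candL C₀ (allC Φ E)) ∧
  PTime (fun E : List (Wd × Wd) => insW Φ C₀ E) ∧
  PTime (fun E : List (Wd × Wd) => (insW Φ C₀ E).map (conW M)) ∧
  PTime edW

/-- [ND ptI] Proof. `allC` by induction on the constant list `Φ` (generalise `zipIdx` to `zipIdx n`); `filter`, `all`, `nat_le`, `mul`. `conW`: `getD` in a constant
list, `nb_ptime`. `edW`: `map`, `headD`, `tail`. -/
def S_ptI : Prop := R_ptC → R_ptI

/-- The answer is computable in polynomial time. -/
def R_ptO : Prop := ∀ (Φ : List (List FG)) (C₀ : ℕ),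
  PTime (fun p : List (Wd × Wd) × List Bool => outS Φ C₀ p.1 p.2) ∧
  PTime (fun p : List (Wd × Wd) × List Wd => indW p.1 p.2) ∧
  PTime (fun p : List Wd × List (List Wd) => pick p.1 p.2)

/-- [ND ptO] Proof. `disV` is a `foldl` with state (remaining bits, output reversed): the output grows by one constraint and at most `bs` in each step
(`PTime.foldl` with a polynomial bound, or: the value of `disV` is a `map` over `zipIdx` with `drop` of the sum of the lengths before). `pick` is a `foldl` whose state is one of the
lists (`PTime.foldl_of_bound`). `fstZ`: `filter`, `map`, `vio` is a `cond` with `all`. -/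
def S_ptO : Prop := R_ptI → R_ptO

/-! ### B4. Families of connected graphs: the search machine -/

/-- The payoff languages have search machines (consequence of the failure of Q1, see `search_main`). -/
def Q_find : Prop := ∀ (M p q b : ℕ), 0 < p → p < q → 0 < b →
  GFind (codeC (ar := arD M)) (fun _ => True) (goodMax (phiD M) ((p : ℚ) / (q : ℕ))) List.length b

/-- Search machines for several families of connected graphs. -/
def R_any : Prop := Q_find → ∀ (Φ : List (List FG)), Φ ≠ [] → (∀ G ∈ Φ, ∀ H ∈ G, H.2.Connected) →
  ∀ D p q b : ℕ, 0 < p → 0 < q → 0 < b →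
    GFind enG (VDg D) (goodAny Φ ((p : ℚ) / (q : ℕ))) nvG b

/-- [ND any] (assembly; compare `find_cut_of_max` in `CutFind.lean`). Proof. Connected graphs have a vertex; `M` = the sum of all `H.1`, `C₀` = 1 + the sum over `Φ` of the constants of
R_clen for `D`, `s = Φ.length`. `find_transfer` with `f x = encW ((insW Φ C₀ (edW x)).map (conW M))`, `h x = mydiv (ded (ends (edW x))).length b`,
`out (x, w) = indW (edW x) (outS Φ C₀ (edW x) (convV w))`, the oracle for `(M, p', q', b')` with `q' = (q + p) * (s * C₀^2 + 1)`, `p' = p`... (any `p'/q' ≤ (p/q)/(s C₀^2)` with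
`0 < p' < q'`), `b' = s * C₀ * b` (`≥ 1`). For a graph `E` of maximum degree at most `D`: `edW (enG E) = bE E` (`parseW_encW`), `F'` from R_inst for `bE E`, code `codeC F' = encW (F'.map wordC)`
(`codeC_eq`). Number of constraints: at most `s * C₀ * nv (bE E)` (R_clen), `nv (bE E) = nv E = nvG E` (R_map with `Nat.bits`), so `F'.length / b' ≤ nv E / b`. Let
`w = outW F' a` be a good answer: `(1 - ε') valC a' ≤ valC a`; with `β j v = decide (a (unbits (nb v j)) = 1)` the assumption of R_near holds (R_inst; `valC = length - count`; all `β'` come from some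
`a'`), so by R_near the set `S` is a solution of some `G ∈ Φ` on `bE E` with `q' dsz ≤ (q' + p' s C₀^2) dsz a'`. Back to `E` with R_map (`f = Nat.bits`): the answer is
`indW (bE E) S = E.flatMap (fun e => [a e.1, a e.2])` with `a v = decide (Nat.bits v ∈ S)`. Length of `w`: at most 2 times the number of places, at most `M + 1` per constraint,
so at most `2 (M + 1) s C₀ nv E ≤ R * (enG E).length` (`nvG_le`). -/
def S_any : Prop := R_map → R_clen → R_near → R_inst → R_conv → R_ptI → R_ptO → R_any

/-! ### B5. Arbitrary finite families -/

/-- Choice of components. -/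
def R_cho : Prop := ∀ FL : List FG, (∀ H ∈ FL, 1 ≤ H.1) → ∃ Φ : List (List FG), Φ ≠ [] ∧
  (∀ G ∈ Φ, ∀ H ∈ G, H.2.Connected) ∧
  (∀ (E : List (ℕ × ℕ)) (a : ℕ → Bool), (∃ G ∈ Φ, Sol {H | H ∈ G} E a) → Sol {H | H ∈ FL} E a) ∧
  ∀ D : ℕ, ∃ c₀ : ℕ, ∀ E : List (ℕ × ℕ), (∀ v, (ends E).count v ≤ D) → ∀ a : ℕ → Bool,
    Sol {H | H ∈ FL} E a → ∃ G ∈ Φ, ∃ a' : ℕ → Bool, Sol {H | H ∈ G} E a' ∧
      dsz E a' ≤ dsz E a + c₀

/-- [ND cho] Proof. For a graph `F` with at least one vertex let `comps F` be the non-empty list of its components (as graphs on `Fin n`), and let `Φ` be the list of all choices of one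
component for every member of `FL` (recursion on `FL`: `Φ [] = [[]]`, `Φ (F :: FL) = (comps F).flatMap (fun C => (Φ FL).map (fun G => C :: G))`). Prove the statement by induction on `FL` in the form of the
two lemmas: (1) if `a` leaves no copy of a component of `F`, it leaves no copy of `F` (compose with the embedding of the component). (2) If `Sol {F} E a` and the degrees are at most `D`, there are a
component `C` of `F` and a set `S` of at most `c(F) = F.1 * F.1 * (D + 1)` vertices such that `a` together with `S` leaves no copy of `C`. Proof of (2): let `C_1, ..., C_r` be the components of `F`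
(`r ≤ F.1`). Suppose not. Choose one after the other copies `f_i` of `C_i` in `E` without `a`, such that `f_i` avoids the closed neighbourhood of `f_1, ..., f_(i-1)` (at most
`F.1 * (D + 1)` vertices, since all images together have at most `F.1` vertices; it could be hit otherwise). Together they form an induced copy of `F` (different components are not adjacent and disjoint
from each other): contradiction to `Sol {F} E a`. (To organise it: let `P k` be the statement: there is an injective map `f` from the union of the first `k` components, preserving and reflecting adjacency, with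
values in `ends E` outside `a`. It may be easier to take for the induction the list of components and the notion 'a family of copies that is independent', and R_emb at the end with `ψ` not
depending on the first index... or directly.) Then induct on `FL`: `Sol {H | H ∈ F :: FL} E a` iff `Sol {F} E a` and `Sol {H | H ∈ FL} E a`; the sets of vertices for all `F` are united (a larger set
deleted remains a solution), `c₀ = Σ c(F)`. -/
def S_cho : Prop := R_cmp → R_cho

/-- The exhaustive search is computable in polynomial time. -/
def R_ptB : Prop := ∀ (FL : List FG) (c : ℕ),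
  PTime (fun p : List (Wd × Wd) × List Wd => bruteW FL c p.1 p.2) ∧
  PTime (fun p : List Wd × List Bool => selW p.1 p.2)

/-- [ND ptB] Proof. Closure properties; `PTime.range` is not needed: `List.range (c + 1)` is a constant list, but `tup l k` depends on the constant `k`, so write the `flatMap` over the constant list as
an append by induction. -/
def S_ptB : Prop := R_ptC → R_ptO → R_ptB

/-- Correctness of the exhaustive search. -/
def R_bru : Prop := ∀ (FL : List FG) (c : ℕ) (E : List (Wd × Wd)) (S : List Wd),
  Sol {H | H ∈ FL} E (fun v => decide (v ∈ S)) → (∀ v ∈ S, v ∈ ends E) →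
  Sol {H | H ∈ FL} E (fun v => decide (v ∈ bruteW FL c E S)) ∧
  dsz E (fun v => decide (v ∈ bruteW FL c E S)) ≤ dsz E (fun v => decide (v ∈ S)) ∧
  ∀ a : Wd → Bool, Sol {H | H ∈ FL} E a → dsz E a ≤ c →
    dsz E (fun v => decide (v ∈ bruteW FL c E S)) ≤ dsz E a

/-- [ND bru] Proof. `pick l₀ L` is `l₀` or a member of `L` and not longer than all of them. `hitsW` is the condition of R_hit. For a list `l` of vertices of `E` without duplicates
`dsz E (· ∈ l) = l.length`; `dsz E (· ∈ ded S) = dsz E (· ∈ S)`. If `a` is a solution with `dsz E a = k ≤ c`, the list of the `v ∈ ded (ends E)` with `a v = true` has length `k`, is in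
`tup (ded (ends E)) k` and hits all copies (R_hit: the vertices of copies are in `ends E`, R_copy). -/
def S_bru : Prop := R_copy → R_hit → R_bru

/-- Search machines for finite families of graphs with a vertex. -/
def R_fin : Prop := Q_find → ∀ (FL : List FG), (∀ H ∈ FL, 1 ≤ H.1) → ∀ D p q b : ℕ, 0 < p → 0 < q →
  0 < b → GFind enG (VDg D) (goodDel {H | H ∈ FL} ((p : ℚ) / (q : ℕ))) nvG b

/-- [ND fin] (assembly) Proof. `Φ`, `c₀` (for `D`) from R_cho; `c = c₀ * (2 q + 2 p)` or larger. By R_any there is a search machine for `goodAny Φ (p / (2 q))`. `find_transfer` with `f = id` (identity),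
`h x = mydiv (ded (ends (edW x))).length b`, `out (x, w) = indW (edW x) (bruteW FL c (edW x) (selW (ends (edW x)) w))`, `R = 1` (`w.length = 2 * E.length ≤ (enG E).length`). For
`w = E.flatMap (fun e => [a e.1, a e.2])` the list `selW (ends (bE E)) w` consists of the words of the vertices in `ends E` with `a v = true`. `a` is a solution of some `G ∈ Φ`, hence of
`FL` (R_cho). Let `a'` be a solution of `FL`. If `dsz E a' ≤ c`, R_bru gives a set that is at most as large. Otherwise `dsz E a' > c`; there are `G ∈ Φ` and a solution `a''` of `G` with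
`dsz E a'' ≤ dsz E a' + c₀`, so the answer has at most `dsz E a ≤ (1 + p/(2q)) (dsz E a' + c₀) ≤ (1 + p/q) dsz E a'` vertices, since `(1 + p/(2q)) c₀ ≤ (p/(2q)) c`, i.e.
`(2 q + p) c₀ ≤ p c`, true for `c = (2 q + 2 p) c₀` because `p ≥ 1`. Everything is transported between `E` and `bE E` with R_map. -/
def S_fin : Prop := R_map → R_any → R_cho → R_ptB → R_ptI → R_ptO → R_bru → R_fin

end Pool.Agent.Lib.MP_87d05f_lc.ND
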