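import Pool.Agent.Lib.MP_87d05f_lc.ND.Defs3

set_option autoImplicit false

/-!
Project ND, part 3 (MP_87d05f_lc, vertex deletion problems on all graphs, isolated vertices included, for every nontrivial
hereditary property): statements of the pieces with complete proofs in words. `R_x` is a conclusion, `S_x` the statement to
be proved. Each piece is proved in its own file `ND/R/x.lean` as `theorem r_x : S_x` (namespace
`Pool.Agent.Lib.MP_87d05f_lc.ND`, import `ND.Stm3`, plus, if useful, files `ND.P.*`, `ND.Q.*`).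

THEOREM. Let `FF` be a nonempty set of finite graphs such that there are `FF`-free graphs with arbitrarily many vertices. Q1 implies
that for some `ε`, `b` no machine finds on every graph `(V, E)` a set of vertices whose deletion leaves an `FF`-free graph, of size
at most `(1 + ε)` times the minimum, in time `C (L+1)^e 2^(|V|/b)`; if `FF` is finite, the converse holds.
-/

namespace Pool.Agent.Lib.MP_87d05f_lc.ND

open Pool.Agent.PolyTime Function Turing

/-- Description of the copies. -/
def R_copB : Prop := ∀ (T : Type) [DecidableEq T] [Inhabited T] (H : FG) (V : List T)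
  (E : List (T × T)) (t : List T), t ∈ copV H V E ↔ ∃ f : Fin H.1 → T, Injective f ∧
    (∀ i, f i ∈ V) ∧ (∀ i j, H.2.Adj i j ↔ ((f i, f j) ∈ E ∨ (f j, f i) ∈ E)) ∧ t = List.ofFn f

/-- [ND3 copB] Proof. As `p_copy` (`ND/P/copy.lean`, import it and use its lemmas on `tup` and `isCopy`) with `V` instead of `ded (ends E)`. -/
def S_copB : Prop := R_copB

/-- Solutions meet all copies. -/
def R_hitB : Prop := ∀ (T : Type) [DecidableEq T] [Inhabited T] (G : List FG) (V : List T)
  (E : List (T × T)) (a : T → Bool),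
  SolV {H | H ∈ G} V E a ↔ ∀ t ∈ cpsV G V E, ∃ w ∈ t, a w = true

/-- [ND3 hitB] Proof. As `p_hit` (`ND/P/hit.lean`) from R_copB. -/
def S_hitB : Prop := R_copB → R_hitB

/-- The environment of a graph is good. -/
def R_envB : Prop := ∀ (FL : List FG) (k : ℕ), (∀ H ∈ FL, 1 ≤ H.1 ∧ H.1 ≤ k) →
  ∀ (V : List Wd) (E : List (Wd × Wd)), EOk k (envB FL V E)

/-- [ND3 envB] Proof. As `q_env` (`ND/Q/env.lean`) with `V` instead of `ends E`, from R_copB. -/
def S_envB : Prop := R_copB → R_envB

/-- Renaming of the vertices by an injective map. -/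
def R_mapB : Prop := ∀ (T T' : Type) [DecidableEq T] [DecidableEq T'] (f : T → T'), Injective f →
  ∀ (V : List T) (E : List (T × T)),
    (∀ (FF : Set FG) (a : T' → Bool), SolV FF (V.map f) (E.map (fun e => (f e.1, f e.2))) a ↔
      SolV FF V E (fun v => a (f v))) ∧
    (∀ a : T' → Bool, ((V.map f).filter a).length = (V.filter (fun v => a (f v))).length) ∧
    (∀ a : T → Bool, ∃ a' : T' → Bool, (fun v => a' (f v)) = a)

/-- [ND3 mapB] Proof. As `p_map` (`ND/P/map.lean`): `List.filter_map`; an injection `g : Fin n → T'` with values in `V.map f` factors through `f`; `a' = a ∘ f⁻¹`. -/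
def S_mapB : Prop := R_mapB

/-- Complements. -/
def R_cplB : Prop := ∀ (T : Type) [DecidableEq T] (V : List T) (E : List (T × T)), V.Nodup →
  (∀ e ∈ cplE V E, e.1 ≠ e.2 ∧ e.1 ∈ V ∧ e.2 ∈ V) ∧
  (cplE V E).Pairwise (fun e f => e ≠ f ∧ e ≠ (f.2, f.1)) ∧
  (∀ u ∈ V, ∀ v ∈ V, ((u, v) ∈ cplE V E ∨ (v, u) ∈ cplE V E) ↔
    (u ≠ v ∧ ¬ ((u, v) ∈ E ∨ (v, u) ∈ E))) ∧
  ∀ (FF : Set FG) (a : T → Bool), (∀ e ∈ E, e.1 ≠ e.2) →
    (SolV FF V (cplE V E) a ↔ SolV (cFF FF) V E a)

/-- [ND3 cplB] Proof. The first three by induction on `V`. The fourth: a map `f : Fin n → T` injective with values in `V` is a copy of `H` in the complement (`H.Adj i j ↔ adjacent in cplE`) iff it is a copy of `Hᶜ` in `E`: for `i ≠ j`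
`f i ≠ f j` and the third statement; for `i = j` both sides are false (`E` has no loops). `H ∈ FF` iff `⟨H.1, H.2ᶜ⟩ ∈ cFF FF` (`compl_compl`). -/
def S_cplB : Prop := R_cplB

/-- Polynomial time. -/
def R_ptV : Prop := PTime verW ∧ PTime edgW ∧ (∀ FL : List FG, PTime (initB FL)) ∧
  PTime (fun p : List Wd × List (Wd × Wd) => cplE p.1 p.2)

/-- [ND3 ptV] Proof. `verW`, `edgW`: `parseW_ptime`, `headD`, `tail`, `map` (see `ptI.lean` for `edW`). `cpsV` as `cps` in `ptC.lean` (`tup`, `isCopy`; import it), `envB`, `initB` as in `ND/Q/ptE.lean`. `cplE V E`: it is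
`V.zipIdx.flatMap (fun p => ((V.drop (p.2 + 1)).filter ..).map ..)` (induction with `zipIdx n`), or a `foldr` over `V` whose state is (the list of the vertices already treated, the result); the size of the result is at most `|V|^2` pairs, so a polynomial bound as needed by `PTime.foldr`
is easy; the first form is better. -/
def S_ptV : Prop := R_ptC → R_ptI → R_ptE → R_ptV

/-- Ramsey's theorem: properties with arbitrarily large graphs. -/
def R_ram : Prop := ∀ FF : Set FG,
  (∀ n : ℕ, ∃ G : FG, n ≤ G.1 ∧ ∀ H ∈ FF, IsEmpty (H.2 ↪g G.2)) →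
  (∀ H ∈ FF, H.2 ≠ ⊥) ∨ (∀ H ∈ FF, H.2 ≠ ⊤)

/-- [ND3 ram] Proof. Ramsey: for all `s`, `t` there is `R` (for instance `R (s+1) (t+1) = R s (t+1) + R (s+1) t`, `R 0 t = R s 0 = 0`, or `2^(s+t)`) such that for every graph `G` on a type `W` and every finset `A` of vertices with at least
`R` elements there are `s` vertices of `A` pairwise not adjacent or `t` vertices of `A` pairwise adjacent: induction on `s + t`, with a vertex `v ∈ A`, `A \ {v}` = non-neighbours and neighbours. Suppose `⟨s, ⊥⟩ ∈ FF` and `⟨t, ⊤⟩ ∈ FF`. Take `G` with at least `R` vertices: `s` pairwise not adjacent vertices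
give `(⊥ : SimpleGraph (Fin s)) ↪g G`, `t` pairwise adjacent ones `⊤ ↪g G` (`Finset.equivFin`, or an injective function from `Fin`). (Mathlib may have `SimpleGraph.IsClique`, `IsIndepSet`, `topEmbeddingOfNotCliqueFree`.) -/
def S_ram : Prop := R_ram

/-- A search machine for all graphs gives separators in bounded degree, for the family and for its complement (`c = true`). -/
def R_sepB : Prop := ∀ (FF : Set FG) (c : Bool) (D p q b : ℕ), 0 < q → 0 < b →
  GFind enV VGV (goodV FF ((p : ℚ) / (q : ℕ))) (fun I => I.1.length) b →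
  GSep enCut (VDel D) (YDel (bif c then cFF FF else FF))
    (NDel (bif c then cFF FF else FF) ((p : ℚ) / (q : ℕ))) nvCut b

/-- [ND3 sepB] Proof. As `p_sepf` (`ND/P/sepf.lean`): `sep_of_find`, `find_transfer` with `f x = encW (V :: E'.map (fun e => [e.1, e.2]))`, where `V = ded (ends E)`, `E' = bif c then cplE V E else E`, `E` = the edges of `x` in words
(`(parseW x).tail`, as `edgW x`), `h x = mydiv V.length b`, `out (x, w) = [decide (q * (number of true in w) ≤ (q + p) * thI x)]` (`w.filter id`). The instance is `F' = (V₀, E₀')` with `V₀ = ded (ends E)` in numbers, `E₀' = bif c then cplE V₀ E else E`: `ded` and `cplE` commute with the injective map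
`Nat.bits` (prove for both a lemma by induction; `ded_map`, `ends_map` may exist in `ND/P/*.lean` or `CutRed.lean`), so the code of `F'` is `f x`. `VGV F'`: `nodup_ded`, `VDel`, R_cplB. `w = V₀.map a`: number of true values = `(V₀.filter a).length = dsz E a` (`allA_dsz` in `ND/Q/allA.lean` has the proof, for words). `SolV FF V₀
E a ↔ Sol FF E a` because `v ∈ ded (ends E) ↔ v ∈ ends E`; for `c = true` by R_cplB `SolV FF V₀ (cplE V₀ E) a ↔ SolV (cFF FF) V₀ E a`. If some solution has at most `t` vertices, the answer has at most `(1 + p/q) t`; if all solutions have more than `(1 + p/q) t`, so has the answer. -/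
def S_sepB : Prop := R_cplB → R_ptV → R_sepB

/-- Search machines for finite families on all graphs. -/
def R_allB : Prop := Q_find → ∀ FL : List FG, (∀ H ∈ FL, 1 ≤ H.1) → ∀ p q b : ℕ, 0 < p → 0 < q →
  0 < b → GFind enV VGV (goodV {H | H ∈ FL} ((p : ℚ) / (q : ℕ))) (fun I => I.1.length) b

/-- [ND3 allB] (assembly, helper14). -/
def S_allB : Prop := R_hitB → R_mapB → R_envB → R_best → R_small → R_ipz → R_leafA → R_ansA →
  R_tree → R_ptE → R_ptV → R_size → R_allB

end Pool.Agent.Lib.MP_87d05f_lc.ND
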